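import Mathlib
import Pool.Agent.U839.Sv.Fin

set_option autoImplicit false

/-! # Mean values of the sieved weights: short windows, and columns of a Maier matrix -/

open Filter Finset Topology

namespace Pool.Agent.U6.SM

open Pool.Agent.U839.Sv (W W_pos W_mono fT fT_nonneg fT_le dens sum_window sub_pow W_bound crt stretch wt err_le)
open Pool.Agent.U839.Thin (tlog)

/-- the probability with which `m` is chosen -/
noncomputable def pr (T : ℕ → ℕ) (m : ℕ) : ℝ := min 1 (fT T m / Real.log m)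

theorem pr_nonneg (T : ℕ → ℕ) (m : ℕ) : 0 ≤ pr T m :=
  le_min zero_le_one (div_nonneg (fT_nonneg T m) (Real.log_natCast_nonneg m))

theorem pr_bd (T : ℕ → ℕ) (n m : ℕ) (h1 : 1 ≤ Real.log n) (hm1 : n ≤ m) (hm2 : m ≤ 4 * n) (hn : 1 ≤ n)
    (hp : fT T m / Real.log m ≤ 1) :
    fT T m - (2 / Real.log n) * fT T m ≤ pr T m * Real.log n ∧ pr T m * Real.log n ≤ fT T m := by
  have e : pr T m = fT T m / Real.log m := min_eq_right hp
  have hn0 : (0 : ℝ) < n := by exact_mod_cast hn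
  have h2 : Real.log n ≤ Real.log m := Real.log_le_log hn0 (by exact_mod_cast hm1)
  have h3 : Real.log m ≤ Real.log n + 2 := by
    calc Real.log m ≤ Real.log ((4 * n : ℕ) : ℝ) :=
          Real.log_le_log (by exact_mod_cast (by omega : 0 < m)) (by exact_mod_cast hm2)
      _ = Real.log 4 + Real.log n := by
          push_cast
          rw [Real.log_mul (by norm_num) hn0.ne']
      _ ≤ _ := by
          have h5 : Real.log 4 = 2 * Real.log 2 := by
            rw [← Real.log_rpow (by norm_num)]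
            norm_num
          have := Real.log_two_lt_d9
          linarith
  have h0 : 0 < Real.log m := by linarith
  have hn1 : 0 < Real.log n := by linarith
  have hf := fT_nonneg T m
  rw [e]
  constructor
  · have h4 : 1 - 2 / Real.log n ≤ Real.log n / Real.log m := by
      rw [le_div_iff₀ h0]
      by_cases h6 : 0 ≤ 1 - 2 / Real.log n
      · calc (1 - 2 / Real.log n) * Real.log m ≤ (1 - 2 / Real.log n) * (Real.log n + 2) := by gcongr
          _ = Real.log n - 4 / Real.log n := by field_simp; ring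
          _ ≤ Real.log n := by
              have : 0 ≤ 4 / Real.log n := by positivity
              linarith
      · push Not at h6
        nlinarith
    calc fT T m - 2 / Real.log n * fT T m = fT T m * (1 - 2 / Real.log n) := by ring
      _ ≤ fT T m * (Real.log n / Real.log m) := by gcongr
      _ = _ := by ring
  · rw [div_mul_eq_mul_div, div_le_iff₀ h0]
    gcongr

theorem kap_le (R : ℕ) (hR : 13 ≤ R) : 0 ≤ (2 : ℝ) ^ 25 * (1 / 2) ^ (2 * R) ∧
    (2 : ℝ) ^ 25 * (1 / 2) ^ (2 * R) ≤ 1 / 2 := by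
  constructor
  · positivity
  · have h : ((1 : ℝ) / 2) ^ (2 * R) ≤ (1 / 2) ^ 26 := pow_le_pow_of_le_one (by norm_num) (by norm_num) (by omega)
    calc (2 : ℝ) ^ 25 * (1 / 2) ^ (2 * R) ≤ 2 ^ 25 * (1 / 2) ^ 26 := by gcongr
      _ ≤ 1 / 2 := by norm_num

/-- the power of the sieving level in the error term is small -/
theorem level_small (T : ℕ → ℕ) (A : ℝ) (hA : 0 < A)
    (hTA : ∀ᶠ n : ℕ in atTop, (T n : ℝ) ≤ (Real.log n) ^ A) (D : ℕ) (a : ℝ)
    (ha : A * D < a) (ε : ℝ) (hε : 0 < ε) :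
    ∀ᶠ n : ℕ in atTop, ((T (2 * n) : ℝ) + 2) ^ D ≤ ε * (Real.log n) ^ a := by
  have h2x : Tendsto (fun x : ℕ => 2 * x) atTop atTop := tendsto_id.const_mul_atTop' (by norm_num)
  have h1 : Tendsto (fun n : ℕ => (Real.log n) ^ (a - A * D)) atTop atTop :=
    (tendsto_rpow_atTop (by linarith)).comp tlog
  filter_upwards [h1.eventually_ge_atTop (3 ^ D * (2 : ℝ) ^ (A * D) * (1 / ε)), tlog.eventually_ge_atTop 1,
    h2x.eventually hTA, eventually_ge_atTop 2] with n g1 g2 g3 g4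
  have hL : 0 < Real.log n := by linarith
  have hn0 : (0 : ℝ) < n := by exact_mod_cast (by omega : 0 < n)
  have e1 : (Real.log n) ^ a = (Real.log n) ^ (a - A * D) * (Real.log n) ^ (A * D) := by
    rw [← Real.rpow_add hL]
    congr 1
    ring
  have hl2 : Real.log ((2 * n : ℕ) : ℝ) ≤ 2 * Real.log n := by
    push_cast
    rw [Real.log_mul (by norm_num) hn0.ne']
    have := Real.log_two_lt_d9
    linarith
  have h4 : (T (2 * n) : ℝ) + 2 ≤ 3 * (2 * Real.log n) ^ A := by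
    have h5 : (1 : ℝ) ≤ (2 * Real.log n) ^ A := Real.one_le_rpow (by linarith) hA.le
    have h6 : Real.log ((2 * n : ℕ) : ℝ) ^ A ≤ (2 * Real.log n) ^ A :=
      Real.rpow_le_rpow (Real.log_natCast_nonneg _) hl2 hA.le
    linarith
  have h7 : 3 ^ D * (2 : ℝ) ^ (A * D) ≤ ε * (Real.log n) ^ (a - A * D) := by
    have h8 := mul_le_mul_of_nonneg_left g1 hε.le
    calc 3 ^ D * (2 : ℝ) ^ (A * D) = ε * (3 ^ D * (2 : ℝ) ^ (A * D) * (1 / ε)) := by field_simp
      _ ≤ _ := h8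
  calc ((T (2 * n) : ℝ) + 2) ^ D ≤ (3 * (2 * Real.log n) ^ A) ^ D := pow_le_pow_left₀ (by positivity) h4 D
    _ = 3 ^ D * (2 : ℝ) ^ (A * D) * (Real.log n) ^ (A * D) := by
        rw [mul_pow, ← Real.rpow_natCast ((2 * Real.log n) ^ A) D, ← Real.rpow_mul (by positivity),
          Real.mul_rpow (by norm_num) hL.le]
        ring
    _ ≤ ε * (Real.log n) ^ (a - A * D) * (Real.log n) ^ (A * D) := by gcongr
    _ = _ := by rw [e1]; ring

/-- mean number of chosen integers in a window -/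
theorem mean_window (T : ℕ → ℕ) (hT : Monotone T) (A : ℝ) (hA : 0 < A)
    (hTA : ∀ᶠ n : ℕ in atTop, (T n : ℝ) ≤ (Real.log n) ^ A) (R : ℕ) (hR : 13 ≤ R) (a : ℝ)
    (ha : A * (8 * R + 18) < a) (ε : ℝ) (hε : 0 < ε) (hε1 : ε ≤ 1) :
    ∀ᶠ n : ℕ in atTop, ∀ K : ℕ, (Real.log n) ^ a ≤ K → K ≤ n →
      |∑ m ∈ Ioc n (n + K), pr T m - K / Real.log n| ≤
        (2 ^ 25 * (1 / 2) ^ (2 * R) + ε) * (K / Real.log n) := by
  have hTs := sub_pow T A hTA
  obtain ⟨D, hD⟩ : ∃ D : ℕ, D = 8 * R + 18 := ⟨_, rfl⟩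
  have hDr : (D : ℝ) = 8 * R + 18 := by rw [hD]; push_cast; ring
  have hpow := level_small T A hA hTA D a (by rw [hDr]; exact ha) (ε / 4) (by positivity)
  have hd := eventually_forall_ge_atTop.2 (dens T hTs 1 one_pos)
  filter_upwards [hpow, hd, tlog.eventually_ge_atTop (24 / ε), tlog.eventually_ge_atTop 1,
    eventually_ge_atTop 2] with n g2 g3 g4 g5 g6
  intro K hK1 hK2
  have hL : 0 < Real.log n := by linarith
  have hK0 : (0 : ℝ) ≤ K := Nat.cast_nonneg K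
  have ht : ((T (2 * n) : ℝ) + 2) ^ D ≤ ε / 4 * K := g2.trans (by gcongr)
  have h1 := sum_window R hR T hT n K (T (2 * n)) (hT (by omega))
  rw [← hD] at h1
  obtain ⟨k1, k2⟩ := kap_le R hR
  obtain ⟨κ, hκ⟩ : ∃ κ : ℝ, κ = (2 : ℝ) ^ 25 * (1 / 2) ^ (2 * R) := ⟨_, rfl⟩
  rw [← hκ] at h1 k1 k2 ⊢
  obtain ⟨S, hS⟩ : ∃ S, S = ∑ m ∈ Ioc n (n + K), fT T m := ⟨_, rfl⟩
  obtain ⟨Q, hQ⟩ : ∃ Q, Q = ∑ m ∈ Ioc n (n + K), pr T m := ⟨_, rfl⟩
  have h2 : ∀ m ∈ Ioc n (n + K), fT T m - (2 / Real.log n) * fT T m ≤ pr T m * Real.log n ∧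
      pr T m * Real.log n ≤ fT T m := by
    intro m hm
    rw [mem_Ioc] at hm
    exact pr_bd T n m g5 hm.1.le (by omega) (by omega) (g3 m (by omega))
  have h3 : Q * Real.log n ≤ S := by
    rw [hQ, hS, sum_mul]
    exact sum_le_sum fun m hm => (h2 m hm).2
  have h4 : S - (2 / Real.log n) * S ≤ Q * Real.log n := by
    rw [hQ, hS, sum_mul, mul_sum, ← sum_sub_distrib]
    exact sum_le_sum fun m hm => (h2 m hm).1
  rw [← hS] at h1
  rw [← hQ]
  obtain ⟨h5, h6⟩ := abs_le.1 h1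
  have hS3 : S ≤ 3 * K := by nlinarith
  have h7 : 2 / Real.log n ≤ ε / 12 := by
    rw [div_le_iff₀ hL]
    have := mul_le_mul_of_nonneg_left g4 (show (0 : ℝ) ≤ ε / 12 by positivity)
    calc (2 : ℝ) = ε / 12 * (24 / ε) := by field_simp; norm_num
      _ ≤ _ := this
  have hS0 : 0 ≤ S := by rw [hS]; exact sum_nonneg fun m _ => fT_nonneg T m
  have h8 : (2 / Real.log n) * S ≤ ε / 4 * K := by
    calc (2 / Real.log n) * S ≤ ε / 12 * (3 * K) := by gcongr
      _ = _ := by ring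
  have h9 : |Q * Real.log n - K| ≤ (κ + ε) * K := by
    rw [abs_le]
    constructor <;> nlinarith
  have e2 : Q - K / Real.log n = (Q * Real.log n - K) / Real.log n := by field_simp
  rw [e2, abs_div, abs_of_pos hL, div_le_iff₀ hL]
  calc |Q * Real.log n - K| ≤ (κ + ε) * K := h9
    _ = _ := by field_simp

/-- the sum over a column, coprime to the modulus -/
theorem column (R : ℕ) (hR : 13 ≤ R) (T : ℕ → ℕ) (hT : Monotone T) (P : Finset ℕ)
    (hP : ∀ p ∈ P, p.Prime) (x J K h t : ℕ) (hx : ∀ p ∈ P, p ≤ T x)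
    (hJ : ∀ j, J < j → x ≤ (∏ q ∈ P, q) * j) (ht : T ((∏ q ∈ P, q) * (J + K) + h) ≤ t)
    (hh : ∀ p ∈ P, ¬ p ∣ h) :
    |∑ j ∈ Ioc J (J + K), fT T ((∏ q ∈ P, q) * j + h) - (∏ p ∈ P, (1 - 1 / (p : ℝ)))⁻¹ * K| ≤
      2 ^ 25 * (1 / 2) ^ (2 * R) * ((∏ p ∈ P, (1 - 1 / (p : ℝ)))⁻¹ * K) + ((t : ℝ) + 2) ^ (8 * R + 18) := by
  classical
  obtain ⟨M, hM⟩ : ∃ M, M = ∏ q ∈ P, q := ⟨_, rfl⟩
  rw [← hM] at hJ ht ⊢
  have hpM : ∀ p ∈ P, p ∣ M := fun p hp => by rw [hM]; exact dvd_prod_of_mem _ hp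
  have hPT : ∀ j, J < j → ∀ p ∈ P, p ≤ T (M * j + h) := by
    intro j hj p hp
    exact (hx p hp).trans (hT ((hJ j hj).trans (Nat.le_add_right _ _)))
  obtain ⟨u, hu⟩ := crt P hP h t
  rw [← hM] at hu
  have hg : Monotone (fun j => T (M * j + h)) := by
    intro i j hij
    apply hT
    have := Nat.mul_le_mul_left M hij
    omega
  have hs := stretch R hR (fun j => T (M * j + h)) hg P hP u J K hPT
  have he : ∀ j ∈ Ioc J (J + K), fT T (M * j + h) = wt (fun j => T (M * j + h)) P u j := by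
    intro j hj
    rw [mem_Ioc] at hj
    unfold fT wt
    congr 1
    apply propext
    have htj : T (M * j + h) ≤ t := (hg hj.2).trans ht
    constructor
    · intro h1 p h2 h3 h4
      rw [← hu p h2 (h3.trans htj) h4 j]
      exact h1 p h2 h3
    · intro h1 p h2 h3
      by_cases h4 : p ∈ P
      · rw [← Nat.dvd_add_iff_right ((hpM p h4).mul_right j)]
        exact hh p h4
      · rw [hu p h2 (h3.trans htj) h4 j]
        exact h1 p h2 h3 h4
  rw [sum_congr rfl he]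
  have h2 := err_le R (T (M * (J + K) + h))
  have h3 : ((T (M * (J + K) + h) : ℝ) + 2) ^ (8 * R + 18) ≤ ((t : ℝ) + 2) ^ (8 * R + 18) := by
    apply pow_le_pow_left₀ (by positivity)
    have : (T (M * (J + K) + h) : ℝ) ≤ t := by exact_mod_cast ht
    linarith
  refine hs.trans ?_
  linarith

/-- the sum over a column, not coprime to the modulus -/
theorem column_zero (T : ℕ → ℕ) (hT : Monotone T) (P : Finset ℕ)
    (hP : ∀ p ∈ P, p.Prime) (x J K h : ℕ) (hx : ∀ p ∈ P, p ≤ T x)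
    (hJ : ∀ j, J < j → x ≤ (∏ q ∈ P, q) * j) (hh : ¬ ∀ p ∈ P, ¬ p ∣ h) :
    ∑ j ∈ Ioc J (J + K), fT T ((∏ q ∈ P, q) * j + h) = 0 := by
  push Not at hh
  obtain ⟨p, hp, hph⟩ := hh
  apply sum_eq_zero
  intro j hj
  rw [mem_Ioc] at hj
  unfold fT
  rw [if_neg]
  push Not
  refine ⟨p, hP p hp, (hx p hp).trans (hT ((hJ j hj.1).trans (Nat.le_add_right _ _))), ?_⟩
  exact Nat.dvd_add ((dvd_prod_of_mem (fun q => q) hp).mul_right j) hph

end Pool.Agent.U6.SM
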