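import Mathlib
import Pool.Agent.U6.SM.Det
import Pool.Agent.U839.Gb.Chern
import Pool.Agent.U746.GM.Prob

set_option autoImplicit false

/-! # Concentration in all windows, empty windows, crowded windows -/

open Filter Finset Topology MeasureTheory ProbabilityTheory

namespace Pool.Agent.U6.SM

open Pool.Agent.U839.Sv (W W_pos W_mono W_ge_one W_le' fT fT_nonneg fT_le dens sum_window sub_pow W_bound)
open Pool.Agent.U839.Gb (SS SS_eq SS_int SS_mgf group)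
open Pool.Agent.U839.Thin (tlog one_sub_ge)

variable {Ω : Type*} [MeasurableSpace Ω] {μ : Measure Ω} [IsProbabilityMeasure μ]

theorem tail (ε δ : ℝ) (hε : 0 < ε) (hδ : 0 < δ) : ∀ᶠ n : ℕ in atTop,
    ((n : ℝ) + 1) * (2 * Real.exp (-(ε ^ 2 / 4 * (Real.log n) ^ (1 + δ)))) ≤ 1 / (n : ℝ) ^ 2 := by
  have h1 : Tendsto (fun n : ℕ => (Real.log n) ^ δ) atTop atTop := (tendsto_rpow_atTop hδ).comp tlog
  filter_upwards [h1.eventually_ge_atTop (20 / ε ^ 2), tlog.eventually_ge_atTop 1,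
    eventually_ge_atTop 4] with n g1 g2 g3
  have hn4 : (4 : ℝ) ≤ n := by exact_mod_cast g3
  have hn0 : (0 : ℝ) < n := by linarith
  have h2 : 5 * Real.log n ≤ ε ^ 2 / 4 * (Real.log n) ^ (1 + δ) := by
    rw [Real.rpow_add (by linarith), Real.rpow_one]
    have h3 := mul_le_mul_of_nonneg_left g1 (show (0 : ℝ) ≤ ε ^ 2 / 4 by positivity)
    have h4 : ε ^ 2 / 4 * (20 / ε ^ 2) = 5 := by field_simp; norm_num
    rw [h4] at h3
    nlinarith
  have h5 : Real.exp (-(ε ^ 2 / 4 * (Real.log n) ^ (1 + δ))) ≤ 1 / (n : ℝ) ^ 5 := by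
    calc Real.exp (-(ε ^ 2 / 4 * (Real.log n) ^ (1 + δ))) ≤ Real.exp (-(5 * Real.log n)) :=
          Real.exp_le_exp.2 (neg_le_neg h2)
      _ = 1 / (n : ℝ) ^ 5 := by
          rw [Real.exp_neg, one_div]
          congr 1
          rw [show (5 : ℝ) * Real.log n = ((5 : ℕ) : ℝ) * Real.log n by norm_num, Real.exp_nat_mul,
            Real.exp_log hn0]
  calc ((n : ℝ) + 1) * (2 * Real.exp (-(ε ^ 2 / 4 * (Real.log n) ^ (1 + δ))))
      ≤ (n : ℝ) ^ 2 * (n * (1 / (n : ℝ) ^ 5)) := by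
        apply mul_le_mul (by nlinarith) _ (by positivity) (by positivity)
        exact mul_le_mul (by linarith) h5 (Real.exp_pos _).le hn0.le
    _ = 1 / (n : ℝ) ^ 2 := by field_simp

/-- upper tail -/
theorem chern_up' (F : ℕ → Set Ω) (hF : ∀ n, MeasurableSet (F n)) (hi : iIndepSet F μ) (s : Finset ℕ)
    (ε M : ℝ) (hε : 0 ≤ ε) (hε1 : ε ≤ 1) (hM : ∑ a ∈ s, μ.real (F a) ≤ M) :
    μ.real {ω | ∑ a ∈ s, μ.real (F a) + ε * M ≤ SS F s ω} ≤ Real.exp (-(ε ^ 2 / 4 * M)) := by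
  have hm0 : 0 ≤ ∑ a ∈ s, μ.real (F a) := sum_nonneg (fun _ _ => measureReal_nonneg)
  refine (measure_ge_le_exp_mul_mgf (t := ε / 2) _ (by linarith) (SS_int F hF s _)).trans ?_
  refine (mul_le_mul_of_nonneg_left (SS_mgf F hF hi s _) (Real.exp_pos _).le).trans ?_
  rw [← Real.exp_add]
  apply Real.exp_le_exp.2
  have h1 : Real.exp (ε / 2) ≤ 1 + ε / 2 + (ε / 2) ^ 2 := by
    have h2 := Real.abs_exp_sub_one_sub_id_le (x := ε / 2) (by rw [abs_of_nonneg (by linarith)]; linarith)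
    have h3 := (abs_le.1 h2).2
    linarith
  have h4 : (∑ a ∈ s, μ.real (F a)) * (Real.exp (ε / 2) - 1) ≤
      (∑ a ∈ s, μ.real (F a)) * (ε / 2 + (ε / 2) ^ 2) := by
    apply mul_le_mul_of_nonneg_left _ hm0
    linarith
  have h5 : (∑ a ∈ s, μ.real (F a)) * (ε / 2) ^ 2 ≤ M * (ε / 2) ^ 2 := by gcongr
  nlinarith

/-- lower tail -/
theorem chern_low' (F : ℕ → Set Ω) (hF : ∀ n, MeasurableSet (F n)) (hi : iIndepSet F μ) (s : Finset ℕ)
    (ε M : ℝ) (hε : 0 ≤ ε) (hε1 : ε ≤ 1) (hM : ∑ a ∈ s, μ.real (F a) ≤ M) :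
    μ.real {ω | SS F s ω ≤ ∑ a ∈ s, μ.real (F a) - ε * M} ≤ Real.exp (-(ε ^ 2 / 4 * M)) := by
  have hm0 : 0 ≤ ∑ a ∈ s, μ.real (F a) := sum_nonneg (fun _ _ => measureReal_nonneg)
  refine (measure_le_le_exp_mul_mgf (t := -(ε / 2)) _ (by linarith) (SS_int F hF s _)).trans ?_
  refine (mul_le_mul_of_nonneg_left (SS_mgf F hF hi s _) (Real.exp_pos _).le).trans ?_
  rw [← Real.exp_add]
  apply Real.exp_le_exp.2
  have h1 : Real.exp (-(ε / 2)) ≤ 1 + -(ε / 2) + (ε / 2) ^ 2 := by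
    have h2 := Real.abs_exp_sub_one_sub_id_le (x := -(ε / 2))
      (by rw [abs_neg, abs_of_nonneg (by linarith)]; linarith)
    have h3 := (abs_le.1 h2).2
    rw [neg_sq] at h3
    linarith
  have h4 : (∑ a ∈ s, μ.real (F a)) * (Real.exp (-(ε / 2)) - 1) ≤
      (∑ a ∈ s, μ.real (F a)) * (-(ε / 2) + (ε / 2) ^ 2) := by
    apply mul_le_mul_of_nonneg_left _ hm0
    linarith
  have h5 : (∑ a ∈ s, μ.real (F a)) * (ε / 2) ^ 2 ≤ M * (ε / 2) ^ 2 := by gcongr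
  nlinarith

/-- concentration in all windows -/
theorem conc {E : ℕ → Set Ω} (hm : ∀ n, MeasurableSet (E n)) (hE : iIndepSet E μ) (ε δ : ℝ) (hε : 0 < ε)
    (hε1 : ε ≤ 1) (hδ : 0 < δ) :
    ∀ᵐ ω ∂μ, ∀ᶠ n : ℕ in atTop, ∀ K : ℕ, K ≤ n →
      |SS E (Ioc n (n + K)) ω - ∑ m ∈ Ioc n (n + K), μ.real (E m)| ≤
        ε * max (∑ m ∈ Ioc n (n + K), μ.real (E m)) ((Real.log n) ^ (1 + δ)) := by
  classical
  obtain ⟨G, hG⟩ : ∃ G : ℕ → ℕ → ℝ, G = fun n K =>
    max (∑ m ∈ Ioc n (n + K), μ.real (E m)) ((Real.log n) ^ (1 + δ)) := ⟨_, rfl⟩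
  obtain ⟨B, hB⟩ : ∃ B : ℕ → ℕ → Set Ω, B = fun n K =>
    {ω | ∑ m ∈ Ioc n (n + K), μ.real (E m) + ε * G n K ≤ SS E (Ioc n (n + K)) ω} ∪
    {ω | SS E (Ioc n (n + K)) ω ≤ ∑ m ∈ Ioc n (n + K), μ.real (E m) - ε * G n K} := ⟨_, rfl⟩
  obtain ⟨Bad, hBad⟩ : ∃ Bad : ℕ → Set Ω, Bad = fun n => ⋃ K ∈ range (n + 1), B n K := ⟨_, rfl⟩
  have hb : ∀ᶠ n : ℕ in atTop, μ.real (Bad n) ≤ 1 / (n : ℝ) ^ 2 := by
    filter_upwards [tail ε δ hε hδ] with n h1
    refine le_trans ?_ h1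
    rw [hBad]
    have h3 : ∀ K ∈ range (n + 1), μ.real (B n K) ≤ 2 * Real.exp (-(ε ^ 2 / 4 * (Real.log n) ^ (1 + δ))) := by
      intro K hK
      have hg1 : ∑ m ∈ Ioc n (n + K), μ.real (E m) ≤ G n K := by rw [hG]; exact le_max_left _ _
      have hg2 : (Real.log n) ^ (1 + δ) ≤ G n K := by rw [hG]; exact le_max_right _ _
      have e1 := chern_up' E hm hE (Ioc n (n + K)) ε (G n K) hε.le hε1 hg1
      have e2 := chern_low' E hm hE (Ioc n (n + K)) ε (G n K) hε.le hε1 hg1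
      have e3 : Real.exp (-(ε ^ 2 / 4 * G n K)) ≤ Real.exp (-(ε ^ 2 / 4 * (Real.log n) ^ (1 + δ))) := by
        apply Real.exp_le_exp.2
        apply neg_le_neg
        exact mul_le_mul_of_nonneg_left hg2 (by positivity)
      rw [hB]
      refine (measureReal_union_le _ _).trans ?_
      linarith
    calc μ.real (⋃ K ∈ range (n + 1), B n K) ≤ ∑ K ∈ range (n + 1), μ.real (B n K) :=
          measureReal_biUnion_finset_le _ _
      _ ≤ ∑ K ∈ range (n + 1), 2 * Real.exp (-(ε ^ 2 / 4 * (Real.log n) ^ (1 + δ))) := Finset.sum_le_sum h3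
      _ = _ := by
          rw [Finset.sum_const, nsmul_eq_mul, card_range]
          push_cast
          ring
  have hs : Summable (fun x : ℕ => μ.real (Bad x)) := by
    refine Summable.of_norm_bounded_eventually_nat (Real.summable_one_div_nat_pow.2 (by norm_num : 1 < 2)) ?_
    filter_upwards [hb] with x hx
    rw [Real.norm_of_nonneg measureReal_nonneg]
    exact hx
  have h1 : ∑' x, μ (Bad x) ≠ ⊤ := by
    have h2 : ∀ x, μ (Bad x) = ENNReal.ofReal (μ.real (Bad x)) := fun k =>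
      (ENNReal.ofReal_toReal (measure_ne_top μ _)).symm
    simp only [h2]
    exact hs.tsum_ofReal_ne_top
  filter_upwards [ae_eventually_notMem h1] with ω hω
  filter_upwards [hω] with n hn K hK
  rw [hBad] at hn
  simp only [Set.mem_iUnion, not_exists] at hn
  have h2 := hn K (by rw [mem_range]; omega)
  rw [hB] at h2
  simp only [Set.mem_union, Set.mem_ofPred_eq, not_or, not_le] at h2
  rw [hG] at h2
  rw [abs_le]
  constructor <;> linarith [h2.1, h2.2]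

theorem pr_small (T : ℕ → ℕ) (A : ℝ) (hA : 0 < A)
    (hTA : ∀ᶠ n : ℕ in atTop, (T n : ℝ) ≤ (Real.log n) ^ A) (θ : ℝ) (hθ : 0 < θ) :
    ∀ᶠ n : ℕ in atTop, pr T n ≤ (Real.log n) ^ (θ - 1) := by
  obtain ⟨C, hC, hW⟩ := W_bound
  have h1 : ∀ᶠ y : ℝ in atTop, C + C * (A * Real.log y) ≤ y ^ θ := by
    have h2 := (isLittleO_log_rpow_atTop hθ).bound (show (0 : ℝ) < 1 / (2 * (C * A)) by positivity)
    filter_upwards [h2, (tendsto_rpow_atTop hθ).eventually_ge_atTop (2 * C), eventually_ge_atTop 1] with y k1 k2 k3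
    rw [Real.norm_of_nonneg (Real.log_nonneg k3), Real.norm_of_nonneg (by positivity)] at k1
    have k4 : C * (A * Real.log y) ≤ y ^ θ / 2 := by
      have := mul_le_mul_of_nonneg_left k1 (show (0 : ℝ) ≤ C * A by positivity)
      calc C * (A * Real.log y) = C * A * Real.log y := by ring
        _ ≤ C * A * (1 / (2 * (C * A)) * y ^ θ) := this
        _ = _ := by field_simp
    linarith
  filter_upwards [hTA, tlog.eventually h1, tlog.eventually_ge_atTop 1] with n g1 g2 g3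
  have hL : 0 < Real.log n := by linarith
  have h3 : Real.log (T n) ≤ A * Real.log (Real.log n) := by
    rcases Nat.eq_zero_or_pos (T n) with h | h
    · rw [h, Nat.cast_zero, Real.log_zero]
      exact mul_nonneg hA.le (Real.log_nonneg g3)
    · rw [← Real.log_rpow hL]
      exact Real.log_le_log (by exact_mod_cast h) g1
  calc pr T n ≤ fT T n / Real.log n := min_le_right _ _
    _ ≤ W (T n) / Real.log n := by gcongr; exact fT_le T n
    _ ≤ (Real.log n) ^ θ / Real.log n := by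
        gcongr
        refine (hW _).trans (le_trans ?_ g2)
        gcongr
    _ = _ := by rw [Real.rpow_sub hL, Real.rpow_one]

theorem harm_div (f : ℕ → ℝ) (h : ∀ᶠ n : ℕ in atTop, (n : ℝ)⁻¹ ≤ f n) : ¬ Summable f := by
  intro hs
  apply Real.not_summable_natCast_inv
  refine Summable.of_norm_bounded_eventually_nat hs ?_
  filter_upwards [h] with n hn
  rw [Real.norm_of_nonneg (by positivity)]
  exact hn

/-- blocks behind squares are short -/
theorem sq_blocks (a : ℝ) : ∀ᶠ j : ℕ in atTop,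
    ⌊(Real.log ((j ^ 2 : ℕ) : ℝ)) ^ a⌋₊ ≤ 2 * j := by
  have h2 : Tendsto (fun n : ℕ => n ^ 2) atTop atTop := tendsto_pow_atTop (by norm_num)
  have h1 := (isLittleO_log_rpow_rpow_atTop a (s := 1 / 2) (by norm_num)).bound (show (0 : ℝ) < 1 by norm_num)
  filter_upwards [h2.eventually (tendsto_natCast_atTop_atTop.eventually h1), eventually_ge_atTop 1] with j k1 k2
  rw [one_mul, Real.norm_of_nonneg (Real.rpow_nonneg (Real.log_natCast_nonneg _) _),
    Real.norm_of_nonneg (by positivity)] at k1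
  have h3 : (((j ^ 2 : ℕ) : ℝ)) ^ (1 / 2 : ℝ) = j := by
    push_cast
    rw [← Real.sqrt_eq_rpow, Real.sqrt_sq (Nat.cast_nonneg j)]
  rw [h3] at k1
  have h4 : ((⌊(Real.log ((j ^ 2 : ℕ) : ℝ)) ^ a⌋₊ : ℕ) : ℝ) ≤ j :=
    (Nat.floor_le (Real.rpow_nonneg (Real.log_natCast_nonneg _) _)).trans k1
  have h5 : ⌊(Real.log ((j ^ 2 : ℕ) : ℝ)) ^ a⌋₊ ≤ j := by exact_mod_cast h4
  omega

theorem sq_disj (I : ℕ → ℕ) (n₀ : ℕ) (h : ∀ j, n₀ ≤ j → I j ≤ 2 * j) :
    ∀ a b, n₀ ≤ a → a < b → Disjoint (Ioc (a ^ 2) (a ^ 2 + I a)) (Ioc (b ^ 2) (b ^ 2 + I b)) := by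
  intro a b ha hab
  rw [Finset.disjoint_left]
  intro m h1 h2
  rw [mem_Ioc] at h1 h2
  have h3 := h a ha
  have h4 : (a + 1) ^ 2 ≤ b ^ 2 := Nat.pow_le_pow_left hab 2
  nlinarith

/-- empty windows -/
theorem empty {E : ℕ → Set Ω} (hm : ∀ n, MeasurableSet (E n)) (hE : iIndepSet E μ) (T : ℕ → ℕ)
    (hl : ∀ n, μ.real (E n) = pr T n) (A : ℝ) (hA : 0 < A)
    (hTA : ∀ᶠ n : ℕ in atTop, (T n : ℝ) ≤ (Real.log n) ^ A) (a : ℝ) (ha0 : 0 < a) (ha : a < 2) :
    ∀ᵐ ω ∂μ, ∃ᶠ n : ℕ in atTop, ∀ m ∈ Ioc n (n + ⌊(Real.log n) ^ a⌋₊), ω ∉ E m := by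
  obtain ⟨θ, hθ⟩ : ∃ θ : ℝ, θ = (2 - a) / 2 := ⟨_, rfl⟩
  have hθ0 : 0 < θ := by rw [hθ]; linarith
  have hθ1 : θ - 1 < 0 := by rw [hθ]; linarith
  obtain ⟨n₀, hn₀⟩ := eventually_atTop.1 (sq_blocks a)
  have h2 : Tendsto (fun n : ℕ => n ^ 2) atTop atTop := tendsto_pow_atTop (by norm_num)
  have hdiv : ¬ Summable (fun j : ℕ => ∏ m ∈ Ioc (j ^ 2) (j ^ 2 + ⌊(Real.log ((j ^ 2 : ℕ) : ℝ)) ^ a⌋₊),
      (1 - μ.real (E m))) := by
    apply harm_div
    have k1 := h2.eventually (eventually_forall_ge_atTop.2 (pr_small T A hA hTA θ hθ0))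
    have k2 : Tendsto (fun n : ℕ => (Real.log n) ^ (-(θ - 1))) atTop atTop :=
      (tendsto_rpow_atTop (by linarith)).comp tlog
    have k3 : Tendsto (fun n : ℕ => (Real.log n) ^ (1 - (a + (θ - 1)))) atTop atTop :=
      (tendsto_rpow_atTop (by rw [hθ]; linarith)).comp tlog
    filter_upwards [k1, h2.eventually (k2.eventually_ge_atTop 2), h2.eventually (k3.eventually_ge_atTop 4),
      h2.eventually (tlog.eventually_ge_atTop 1), eventually_ge_atTop 1] with j g1 g2 g3 g4 g5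
    obtain ⟨n, hn⟩ : ∃ n : ℕ, n = j ^ 2 := ⟨_, rfl⟩
    rw [← hn] at g1 g2 g3 g4 ⊢
    have hL : 0 < Real.log n := by linarith
    have hj0 : (0 : ℝ) < j := by exact_mod_cast g5
    have hlogn : Real.log n = 2 * Real.log j := by
      rw [hn]
      push_cast
      rw [Real.log_pow]
      push_cast
      ring
    have hhalf : (Real.log n) ^ (θ - 1) ≤ 1 / 2 := by
      rw [Real.rpow_neg hL.le] at g2
      have h5 : 0 < (Real.log n) ^ (θ - 1) := Real.rpow_pos_of_pos hL _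
      rw [le_inv_comm₀ (by norm_num) h5] at g2
      linarith
    have hpm : ∀ m ∈ Ioc n (n + ⌊(Real.log n) ^ a⌋₊), 0 ≤ μ.real (E m) ∧
        μ.real (E m) ≤ (Real.log n) ^ (θ - 1) := by
      intro m hm'
      rw [mem_Ioc] at hm'
      rw [hl]
      refine ⟨pr_nonneg T m, (g1 m hm'.1.le).trans ?_⟩
      apply Real.rpow_le_rpow_of_nonpos hL _ hθ1.le
      exact Real.log_le_log (by rw [hn]; positivity) (by exact_mod_cast hm'.1.le)
    have h6 : ∀ m ∈ Ioc n (n + ⌊(Real.log n) ^ a⌋₊), Real.exp (-(2 * (Real.log n) ^ (θ - 1))) ≤ 1 - μ.real (E m) := by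
      intro m hm'
      obtain ⟨q1, q2⟩ := hpm m hm'
      refine le_trans ?_ (one_sub_ge _ q1 (q2.trans hhalf))
      apply Real.exp_le_exp.2
      nlinarith
    calc ((j : ℝ))⁻¹ = Real.exp (-(Real.log j)) := by rw [Real.exp_neg, Real.exp_log hj0]
      _ ≤ Real.exp (-(2 * (Real.log n) ^ (θ - 1)) * ⌊(Real.log n) ^ a⌋₊) := by
          apply Real.exp_le_exp.2
          have q1 : (⌊(Real.log n) ^ a⌋₊ : ℝ) ≤ (Real.log n) ^ a := Nat.floor_le (by positivity)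
          have q2 : (Real.log n) ^ (θ - 1) * (Real.log n) ^ a * 4 ≤ Real.log n := by
            have q3 : (Real.log n) ^ (θ - 1) * (Real.log n) ^ a * (Real.log n) ^ (1 - (a + (θ - 1))) = Real.log n := by
              rw [← Real.rpow_add hL, ← Real.rpow_add hL]
              have : θ - 1 + a + (1 - (a + (θ - 1))) = 1 := by ring
              rw [this, Real.rpow_one]
            calc (Real.log n) ^ (θ - 1) * (Real.log n) ^ a * 4 ≤
                (Real.log n) ^ (θ - 1) * (Real.log n) ^ a * (Real.log n) ^ (1 - (a + (θ - 1))) := by gcongr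
              _ = _ := q3
          have q4 : (Real.log n) ^ (θ - 1) * ⌊(Real.log n) ^ a⌋₊ ≤ (Real.log n) ^ (θ - 1) * (Real.log n) ^ a := by
            gcongr
          nlinarith
      _ = Real.exp (-(2 * (Real.log n) ^ (θ - 1))) ^ (Ioc n (n + ⌊(Real.log n) ^ a⌋₊)).card := by
          rw [Nat.card_Ioc, Nat.add_sub_cancel_left, ← Real.exp_nat_mul]
          congr 1
          ring
      _ = ∏ m ∈ Ioc n (n + ⌊(Real.log n) ^ a⌋₊), Real.exp (-(2 * (Real.log n) ^ (θ - 1))) := by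
          rw [Finset.prod_const]
      _ ≤ ∏ m ∈ Ioc n (n + ⌊(Real.log n) ^ a⌋₊), (1 - μ.real (E m)) :=
          Finset.prod_le_prod (fun m _ => (Real.exp_pos _).le) h6
  have h3 := Pool.Agent.U746.GM.io' hm hE (fun j => Ioc (j ^ 2) (j ^ 2 + ⌊(Real.log ((j ^ 2 : ℕ) : ℝ)) ^ a⌋₊)) n₀
    (sq_disj (fun j => ⌊(Real.log ((j ^ 2 : ℕ) : ℝ)) ^ a⌋₊) n₀ hn₀) hdiv
  filter_upwards [h3] with ω hω
  have h4 := Nat.frequently_atTop_iff_infinite.2 hω
  have h5 : ∃ᶠ j : ℕ in atTop, ∀ m ∈ Ioc (j ^ 2) (j ^ 2 + ⌊(Real.log ((j ^ 2 : ℕ) : ℝ)) ^ a⌋₊), ω ∉ E m :=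
    h4.mono fun j hj => Pool.Agent.U746.GM.mem_NN.1 hj
  exact h2.frequently (p := fun n : ℕ => ∀ m ∈ Ioc n (n + ⌊(Real.log n) ^ a⌋₊), ω ∉ E m) h5

end Pool.Agent.U6.SM
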