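import Mathlib
import Pool.Agent.U6.SM.Prob

set_option autoImplicit false

/-! # Crowded windows -/

open Filter Finset Topology MeasureTheory ProbabilityTheory

namespace Pool.Agent.U6.SM

open Pool.Agent.U839.Sv (W W_pos W_mono W_ge_one W_le' fT fT_nonneg fT_le dens sum_window sub_pow W_bound)
open Pool.Agent.U839.Gb (SS SS_eq group)
open Pool.Agent.U839.Thin (tlog)

variable {Ω : Type*} [MeasurableSpace Ω] {μ : Measure Ω} [IsProbabilityMeasure μ]

/-- the sifted integers of a window -/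
noncomputable def rough (T : ℕ → ℕ) (n K : ℕ) : Finset ℕ :=
  (Ioc n (n + K)).filter (fun m => fT T m ≠ 0)

theorem fT_of_ne (T : ℕ → ℕ) (m : ℕ) (h : fT T m ≠ 0) : fT T m = W (T m) := by
  unfold fT at h ⊢
  split_ifs with h1
  · rfl
  · rw [if_neg h1] at h
    exact absurd rfl h

/-- many sifted integers -/
theorem many_rough (T : ℕ → ℕ) (hT : Monotone T)
    (hsm : ∀ θ : ℝ, 0 < θ → ∀ᶠ n : ℕ in atTop, (T n : ℝ) ≤ (Real.log n) ^ θ) (a s : ℝ) (hs : 0 < s)
    (hsa : s < a) : ∀ᶠ n : ℕ in atTop,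
      (Real.log n) ^ s + 1 ≤ ((rough T n ⌊(Real.log n) ^ a⌋₊).card : ℝ) := by
  obtain ⟨θ, hθ⟩ : ∃ θ : ℝ, θ = (a - s) / 2 := ⟨_, rfl⟩
  have hθ0 : 0 < θ := by rw [hθ]; linarith
  have q1 := level_small T (a / 200) (by linarith) (hsm (a / 200) (by linarith)) (8 * 13 + 18) a
    (by push_cast; linarith) (1 / 8) (by norm_num)
  have q2 := level_small T (θ / 2) (by linarith) (hsm (θ / 2) (by linarith)) 1 θ
    (by push_cast; linarith) (1 / 2) (by norm_num)
  have k1 : Tendsto (fun n : ℕ => (Real.log n) ^ a) atTop atTop := (tendsto_rpow_atTop (by linarith)).comp tlog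
  have k2 : Tendsto (fun n : ℕ => (Real.log n) ^ θ) atTop atTop := (tendsto_rpow_atTop hθ0).comp tlog
  have k3 : ∀ᶠ n : ℕ in atTop, (Real.log n) ^ a ≤ 1 * n := by
    have h := (isLittleO_log_rpow_rpow_atTop a (s := 1) one_pos).bound (show (0 : ℝ) < 1 by norm_num)
    filter_upwards [tendsto_natCast_atTop_atTop.eventually h] with N hN
    rwa [Real.norm_of_nonneg (Real.rpow_nonneg (Real.log_natCast_nonneg _) _),
      Real.norm_of_nonneg (by positivity), Real.rpow_one] at hN
  filter_upwards [q1, q2, k1.eventually_ge_atTop 16, k2.eventually_ge_atTop 16, k3, tlog.eventually_ge_atTop 1]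
    with n g1 g2 g3 g4 g5 g6
  have hL : 0 < Real.log n := by linarith
  obtain ⟨K, hK⟩ : ∃ K, K = ⌊(Real.log n) ^ a⌋₊ := ⟨_, rfl⟩
  have hK1 : (K : ℝ) ≤ (Real.log n) ^ a := by rw [hK]; exact Nat.floor_le (by positivity)
  have hK2 : (Real.log n) ^ a - 1 ≤ K := by
    rw [hK]
    exact (Nat.sub_one_lt_floor _).le
  have hKn : K ≤ n := by
    have : (K : ℝ) ≤ n := by linarith
    exact_mod_cast this
  rw [← hK]
  have h1 := sum_window 13 le_rfl T hT n K (T (2 * n)) (hT (by omega))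
  have h2 : (2 : ℝ) ^ 25 * (1 / 2) ^ (2 * 13) = 1 / 2 := by norm_num
  rw [h2] at h1
  have h3 := (abs_le.1 h1).1
  have h4 : 1 / 4 * (Real.log n) ^ a ≤ ∑ m ∈ Ioc n (n + K), fT T m := by linarith
  have h5 : ∑ m ∈ Ioc n (n + K), fT T m ≤ ((rough T n K).card : ℝ) * (1 / 2 * (Real.log n) ^ θ) := by
    calc ∑ m ∈ Ioc n (n + K), fT T m = ∑ m ∈ rough T n K, fT T m := by
          unfold rough
          rw [sum_filter_ne_zero]
      _ ≤ ∑ m ∈ rough T n K, (1 / 2 * (Real.log n) ^ θ) := by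
          apply sum_le_sum
          intro m hm
          unfold rough at hm
          rw [mem_filter, mem_Ioc] at hm
          calc fT T m ≤ W (T m) := fT_le T m
            _ ≤ T m + 1 := W_le' _
            _ ≤ T (2 * n) + 2 := by
                have h6 : T m ≤ T (2 * n) := hT (by omega)
                have h7 : (T m : ℝ) ≤ T (2 * n) := by exact_mod_cast h6
                linarith
            _ ≤ _ := by
                rw [pow_one] at g2
                exact g2
      _ = _ := by rw [sum_const, nsmul_eq_mul]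
  have h6 : (Real.log n) ^ a = (Real.log n) ^ θ * ((Real.log n) ^ θ * (Real.log n) ^ s) := by
    rw [← Real.rpow_add hL, ← Real.rpow_add hL]
    congr 1
    rw [hθ]
    ring
  have h7 : 0 < (Real.log n) ^ θ := by positivity
  have h8 : 1 ≤ (Real.log n) ^ s := Real.one_le_rpow g6 hs.le
  have h9 : 1 / 2 * ((Real.log n) ^ θ * (Real.log n) ^ s) ≤ ((rough T n K).card : ℝ) := by
    have h10 : (Real.log n) ^ θ * (1 / 4 * ((Real.log n) ^ θ * (Real.log n) ^ s)) ≤
        (Real.log n) ^ θ * (((rough T n K).card : ℝ) * (1 / 2)) := by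
      calc (Real.log n) ^ θ * (1 / 4 * ((Real.log n) ^ θ * (Real.log n) ^ s)) = 1 / 4 * (Real.log n) ^ a := by
            rw [h6]; ring
        _ ≤ _ := h4.trans h5
        _ = _ := by ring
    have h11 := le_of_mul_le_mul_left h10 h7
    linarith
  nlinarith

theorem sets_io (G : ℕ → Set Ω) (hG : ∀ j, MeasurableSet (G j)) (hi : iIndepSet G μ)
    (hdiv : ¬ Summable (fun j => μ.real (G j))) : ∀ᵐ ω ∂μ, ∃ᶠ j in atTop, ω ∈ G j := by
  have h1 : ∑' n, μ (G n) = ⊤ := by
    by_contra h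
    apply hdiv
    have h2 := ENNReal.summable_toReal h
    exact h2.congr (fun n => by rw [measureReal_def])
  have h2 := measure_limsup_eq_one hG hi h1
  have h3 : ∀ᵐ ω ∂μ, ω ∈ limsup G atTop := by
    rw [ae_iff]
    have h4 : {ω | ω ∉ limsup G atTop} = (limsup G atTop)ᶜ := rfl
    rw [h4, prob_compl_eq_zero_iff]
    · exact h2
    · exact MeasurableSet.measurableSet_limsup hG
  filter_upwards [h3] with ω hω
  rwa [mem_limsup_iff_frequently_mem] at hω

/-- the probability that all of few given integers are chosen is not too small -/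
theorem pow_low (s : ℝ) (hs : 0 < s) (hs1 : s < 1) : ∀ᶠ y : ℝ in atTop,
    (y ^ s + 2) * Real.log (2 * y) ≤ y / 2 := by
  obtain ⟨t, ht⟩ : ∃ t : ℝ, t = (1 - s) / 2 := ⟨_, rfl⟩
  have ht0 : 0 < t := by rw [ht]; linarith
  have h1 := (isLittleO_log_rpow_atTop ht0).bound (show (0 : ℝ) < 1 / 100 by norm_num)
  have h2x : Tendsto (fun y : ℝ => 2 * y) atTop atTop := tendsto_id.const_mul_atTop (by norm_num)
  have h2 : ∀ᶠ y : ℝ in atTop, 1 ≤ y ^ t := (tendsto_rpow_atTop ht0).eventually_ge_atTop 1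
  filter_upwards [h2x.eventually h1, h2, eventually_ge_atTop 1, (tendsto_rpow_atTop hs).eventually_ge_atTop 2]
    with y g1 g2 g3 g4
  have hy : 0 < y := by linarith
  rw [Real.norm_of_nonneg (Real.log_nonneg (by linarith)), Real.norm_of_nonneg (by positivity)] at g1
  have h3 : (2 * y) ^ t ≤ 2 * y ^ t := by
    rw [Real.mul_rpow (by norm_num) hy.le]
    have : (2 : ℝ) ^ t ≤ 2 ^ (1 : ℝ) := Real.rpow_le_rpow_of_exponent_le (by norm_num) (by rw [ht]; linarith)
    rw [Real.rpow_one] at this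
    gcongr
  have h4 : y ^ s * (y ^ t * y ^ t) = y := by
    rw [← Real.rpow_add hy, ← Real.rpow_add hy]
    have : s + (t + t) = 1 := by rw [ht]; ring
    rw [this, Real.rpow_one]
  have h5 : 0 < y ^ s := by positivity
  calc (y ^ s + 2) * Real.log (2 * y) ≤ (2 * y ^ s) * (1 / 100 * (2 * y ^ t)) := by
        apply mul_le_mul (by linarith) (g1.trans (by gcongr)) (Real.log_nonneg (by linarith)) (by positivity)
    _ ≤ (2 * y ^ s) * (1 / 100 * (2 * (y ^ t * y ^ t))) := by
        have : y ^ t ≤ y ^ t * y ^ t := by nlinarith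
        gcongr
    _ = 1 / 25 * (y ^ s * (y ^ t * y ^ t)) := by ring
    _ = 1 / 25 * y := by rw [h4]
    _ ≤ y / 2 := by linarith

/-- crowded windows -/
theorem crowded {E : ℕ → Set Ω} (hm : ∀ n, MeasurableSet (E n)) (hE : iIndepSet E μ) (T : ℕ → ℕ)
    (hT : Monotone T) (hl : ∀ n, μ.real (E n) = pr T n)
    (hsm : ∀ θ : ℝ, 0 < θ → ∀ᶠ n : ℕ in atTop, (T n : ℝ) ≤ (Real.log n) ^ θ) (a s : ℝ) (hs : 0 < s)
    (hs1 : s < 1) (hsa : s < a) :
    ∀ᵐ ω ∂μ, ∃ᶠ n : ℕ in atTop, (Real.log n) ^ s ≤ SS E (Ioc n (n + ⌊(Real.log n) ^ a⌋₊)) ω := by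
  classical
  obtain ⟨n₀, hn₀⟩ := eventually_atTop.1 (sq_blocks a)
  have h2 : Tendsto (fun n : ℕ => n ^ 2) atTop atTop := tendsto_pow_atTop (by norm_num)
  have hr := h2.eventually (many_rough T hT hsm a s hs hsa)
  obtain ⟨n₁, hn₁⟩ := eventually_atTop.1 hr
  have hch : ∀ j : ℕ, ∃ V : Finset ℕ, V ⊆ Ioc (j ^ 2) (j ^ 2 + ⌊(Real.log ((j ^ 2 : ℕ) : ℝ)) ^ a⌋₊) ∧
      (j < max n₀ n₁ → V = ∅) ∧ (∀ m ∈ V, fT T m ≠ 0) ∧
      (max n₀ n₁ ≤ j → V.card = ⌈(Real.log ((j ^ 2 : ℕ) : ℝ)) ^ s⌉₊) := by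
    intro j
    by_cases hj : j < max n₀ n₁
    · exact ⟨∅, by simp, fun _ => rfl, by simp, fun h => absurd hj (by omega)⟩
    · push Not at hj
      have h3 := hn₁ j ((le_max_right _ _).trans hj)
      have h4 : ⌈(Real.log ((j ^ 2 : ℕ) : ℝ)) ^ s⌉₊ ≤
          (rough T (j ^ 2) ⌊(Real.log ((j ^ 2 : ℕ) : ℝ)) ^ a⌋₊).card := by
        have h5 : (⌈(Real.log ((j ^ 2 : ℕ) : ℝ)) ^ s⌉₊ : ℝ) ≤
            ((rough T (j ^ 2) ⌊(Real.log ((j ^ 2 : ℕ) : ℝ)) ^ a⌋₊).card : ℝ) :=
          (Nat.ceil_lt_add_one (Real.rpow_nonneg (Real.log_natCast_nonneg _) _)).le.trans h3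
        exact_mod_cast h5
      obtain ⟨V, hV1, hV2⟩ := exists_subset_card_eq h4
      refine ⟨V, hV1.trans (filter_subset _ _), fun h => absurd h (by omega), fun m hm' => ?_, fun _ => hV2⟩
      have := hV1 hm'
      unfold rough at this
      exact (mem_filter.1 this).2
  choose V hV1 hV2 hV3 hV4 using hch
  have hdis : ∀ i j, i ≠ j → Disjoint (V i) (V j) := by
    have h3 := sq_disj (fun j => ⌊(Real.log ((j ^ 2 : ℕ) : ℝ)) ^ a⌋₊) n₀ hn₀
    have h4 : ∀ i j, i < j → Disjoint (V i) (V j) := by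
      intro i j hij
      by_cases hi : i < max n₀ n₁
      · rw [hV2 i hi]
        exact disjoint_empty_left _
      · push Not at hi
        exact (h3 i j ((le_max_left _ _).trans hi) hij).mono (hV1 i) (hV1 j)
    intro i j hij
    rcases Nat.lt_or_gt_of_ne hij with h | h
    · exact h4 i j h
    · exact (h4 j i h).symm
  have hind := group hm hE V hdis
  have hmeas : ∀ j, MeasurableSet (⋂ m ∈ V j, E m) := fun j => Finset.measurableSet_biInter _ (fun m _ => hm m)
  have hdiv : ¬ Summable (fun j => μ.real (⋂ m ∈ V j, E m)) := by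
    apply harm_div
    filter_upwards [h2.eventually (tlog.eventually (pow_low s hs hs1)), h2.eventually (tlog.eventually_ge_atTop 1),
      eventually_ge_atTop (max n₀ n₁), eventually_ge_atTop 1] with j g1 g2 g3 g4
    have hj0 : (0 : ℝ) < j := by exact_mod_cast g4
    have hbl : ⌊(Real.log ((j ^ 2 : ℕ) : ℝ)) ^ a⌋₊ ≤ j ^ 2 := by
      have h5 := hn₀ j ((le_max_left _ _).trans g3)
      rcases Nat.lt_or_ge j 2 with h6 | h6
      · have h7 : j = 1 := by omega
        subst h7
        norm_num at g2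
      · nlinarith
    have hcard := hV4 j g3
    obtain ⟨n, hn⟩ : ∃ n : ℕ, n = j ^ 2 := ⟨_, rfl⟩
    have hV1' := hV1 j
    rw [← hn] at g1 g2 hbl hcard hV1'
    have hL : 0 < Real.log n := by linarith
    have hnpos : (0 : ℝ) < n := by rw [hn]; positivity
    have hlogn : Real.log n = 2 * Real.log j := by
      rw [hn]
      push_cast
      rw [Real.log_pow]
      push_cast
      ring
    have h6 : μ.real (⋂ m ∈ V j, E m) = ∏ m ∈ V j, pr T m := by
      rw [measureReal_def, hE.meas_biInter, ENNReal.toReal_prod]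
      exact prod_congr rfl fun m _ => by rw [← measureReal_def, hl]
    have h7 : ∀ m ∈ V j, (2 * Real.log n)⁻¹ ≤ pr T m := by
      intro m hmV
      have h8 := hV1' hmV
      rw [mem_Ioc] at h8
      have h9 : Real.log m ≤ 2 * Real.log n := by
        calc Real.log m ≤ Real.log ((2 * n : ℕ) : ℝ) :=
              Real.log_le_log (by exact_mod_cast (by omega : 0 < m)) (by exact_mod_cast (by omega))
          _ = Real.log 2 + Real.log n := by
              push_cast
              rw [Real.log_mul (by norm_num) hnpos.ne']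
          _ ≤ _ := by
              have := Real.log_two_lt_d9
              linarith
      have h10 : Real.log n ≤ Real.log m := Real.log_le_log hnpos (by exact_mod_cast h8.1.le)
      have h11 : 0 < Real.log m := by linarith
      unfold pr
      apply le_min
      · rw [inv_le_one_iff₀]
        right
        linarith
      · rw [fT_of_ne T m (hV3 j m hmV)]
        calc (2 * Real.log n)⁻¹ ≤ (Real.log m)⁻¹ := by gcongr
          _ = 1 / Real.log m := by rw [one_div]
          _ ≤ W (T m) / Real.log m := by gcongr; exact W_ge_one _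
    have h8 : (2 * Real.log n)⁻¹ ^ (V j).card ≤ μ.real (⋂ m ∈ V j, E m) := by
      rw [h6, ← prod_const]
      exact prod_le_prod (fun m _ => by positivity) h7
    refine le_trans ?_ h8
    have h9 : (2 * Real.log n)⁻¹ = Real.exp (-(Real.log (2 * Real.log n))) := by
      rw [Real.exp_neg, Real.exp_log (by positivity)]
    rw [h9, ← Real.exp_nat_mul]
    calc ((j : ℝ))⁻¹ = Real.exp (-(Real.log j)) := by rw [Real.exp_neg, Real.exp_log hj0]
      _ ≤ _ := by
        apply Real.exp_le_exp.2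
        rw [mul_neg, neg_le_neg_iff]
        have h10 : ((V j).card : ℝ) ≤ (Real.log n) ^ s + 2 := by
          rw [hcard]
          have := (Nat.ceil_lt_add_one (show (0 : ℝ) ≤ (Real.log n) ^ s by positivity)).le
          linarith
        have h11 : 0 ≤ Real.log (2 * Real.log n) := Real.log_nonneg (by linarith)
        calc ((V j).card : ℝ) * Real.log (2 * Real.log n) ≤ ((Real.log n) ^ s + 2) * Real.log (2 * Real.log n) := by
              gcongr
          _ ≤ Real.log n / 2 := g1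
          _ = Real.log j := by rw [hlogn]; ring
  filter_upwards [sets_io _ hmeas hind hdiv] with ω hω
  have h3 : ∃ᶠ j : ℕ in atTop, (Real.log ((j ^ 2 : ℕ) : ℝ)) ^ s ≤
      SS E (Ioc (j ^ 2) (j ^ 2 + ⌊(Real.log ((j ^ 2 : ℕ) : ℝ)) ^ a⌋₊)) ω := by
    have h4 := hω.and_eventually (eventually_ge_atTop (max n₀ n₁))
    refine h4.mono ?_
    rintro j ⟨h5, h6⟩
    rw [SS_eq]
    have h7 : V j ⊆ (Ioc (j ^ 2) (j ^ 2 + ⌊(Real.log ((j ^ 2 : ℕ) : ℝ)) ^ a⌋₊)).filter (fun m => ω ∈ E m) := by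
      intro m hmV
      rw [mem_filter]
      refine ⟨hV1 j hmV, ?_⟩
      simp only [Set.mem_iInter] at h5
      exact h5 m hmV
    calc (Real.log ((j ^ 2 : ℕ) : ℝ)) ^ s ≤ (⌈(Real.log ((j ^ 2 : ℕ) : ℝ)) ^ s⌉₊ : ℝ) := Nat.le_ceil _
      _ = ((V j).card : ℝ) := by rw [hV4 j h6]
      _ ≤ _ := by exact_mod_cast card_le_card h7
  exact h2.frequently (p := fun n : ℕ => (Real.log n) ^ s ≤ SS E (Ioc n (n + ⌊(Real.log n) ^ a⌋₊)) ω) h3

end Pool.Agent.U6.SM
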