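import Mathlib
import Pool.Agent.U6.SM.Det
import Pool.Agent.N610.MS.CNT
import Pool.Agent.N610.MS.BON
import Pool.Agent.N610.MS.LEG

set_option autoImplicit false

/-! # The rows of a Maier matrix in the sieved model -/

open Filter Finset Topology

namespace Pool.Agent.U6.SM

open Pool.Agent.U839.Sv (W W_pos W_mono fT fT_nonneg fT_le dens T_small exists_R)
open Pool.Agent.U839.Thin (tlog)
open Pool.Agent.N610.MS (V rel)

theorem cnt : Pool.Agent.N610.MS.S_CNT :=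
  Pool.Agent.N610.MS.t_CNT Pool.Agent.N610.MS.t_BON (Pool.Agent.N610.MS.t_LEG Pool.Agent.N610.MS.t_BON)

theorem rows (R : ℕ) (hR : 13 ≤ R) (T : ℕ → ℕ) (hT : Monotone T) (P : Finset ℕ)
    (hP : ∀ p ∈ P, p.Prime) (x J K Y t : ℕ) (hx : ∀ p ∈ P, p ≤ T x)
    (hJ : ∀ j, J < j → x ≤ (∏ q ∈ P, q) * j) (ht : T ((∏ q ∈ P, q) * (J + K) + Y) ≤ t) :
    |∑ j ∈ Ioc J (J + K), ∑ h ∈ Icc 1 Y, fT T ((∏ q ∈ P, q) * j + h) -
        V P Y * ((∏ p ∈ P, (1 - 1 / (p : ℝ)))⁻¹ * K)| ≤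
      V P Y * (2 ^ 25 * (1 / 2) ^ (2 * R) * ((∏ p ∈ P, (1 - 1 / (p : ℝ)))⁻¹ * K) +
        ((t : ℝ) + 2) ^ (8 * R + 18)) := by
  rw [sum_comm]
  obtain ⟨F, hF⟩ : ∃ F : Finset ℕ, F = (Icc 1 Y).filter (fun h => ∀ p ∈ P, ¬ p ∣ h) := ⟨_, rfl⟩
  have hV : (V P Y : ℝ) = F.card := by rw [hF]; rfl
  have h1 : ∑ h ∈ Icc 1 Y, ∑ j ∈ Ioc J (J + K), fT T ((∏ q ∈ P, q) * j + h) =
      ∑ h ∈ F, ∑ j ∈ Ioc J (J + K), fT T ((∏ q ∈ P, q) * j + h) := by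
    rw [hF, sum_filter]
    apply sum_congr rfl
    intro h _
    split_ifs with hh
    · rfl
    · exact column_zero T hT P hP x J K h hx hJ hh
  rw [h1, hV, ← nsmul_eq_mul, ← sum_const, ← nsmul_eq_mul, ← sum_const, ← sum_sub_distrib]
  refine (abs_sum_le_sum_abs _ _).trans (sum_le_sum ?_)
  intro h hh
  rw [hF, mem_filter, mem_Icc] at hh
  exact column R hR T hT P hP x J K h t hx hJ ((hT (by omega)).trans ht) hh.2

theorem shift_sum (f : ℕ → ℝ) (a Y : ℕ) : ∑ h ∈ Icc 1 Y, f (a + h) = ∑ m ∈ Ioc a (a + Y), f m := by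
  refine sum_nbij' (fun h => a + h) (fun m => m - a) ?_ ?_ ?_ ?_ ?_
  · intro h hh; rw [mem_Icc] at hh; rw [mem_Ioc]; omega
  · intro m hm; rw [mem_Ioc] at hm; rw [mem_Icc]; omega
  · intro h _; simp
  · intro m hm; rw [mem_Ioc] at hm; omega
  · intro h _; rfl

/-- a rich row and a poor row -/
theorem exists_rows (R : ℕ) (hR : 13 ≤ R) (T : ℕ → ℕ) (hT : Monotone T) (P : Finset ℕ)
    (hP : ∀ p ∈ P, p.Prime) (N Y : ℕ) (hx : ∀ p ∈ P, p ≤ T N) (hYN : Y ≤ N)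
    (hM : ((∏ p ∈ P, p : ℕ) : ℝ) ≤ (N : ℝ) ^ (1 / 4 : ℝ)) (hN : 256 ≤ N)
    (hTN : ((T (3 * N) : ℝ) + 2) ^ (8 * R + 18) ≤ (N : ℝ) ^ (1 / 4 : ℝ)) :
    (∃ m, N < m ∧ m ≤ 2 * N ∧ V P Y * (∏ p ∈ P, (1 - 1 / (p : ℝ)))⁻¹ * (1 - 2 ^ 25 * (1 / 2) ^ (2 * R)) -
      Y * (N : ℝ) ^ (-(1 / 4) : ℝ) ≤ ∑ i ∈ Ioc m (m + Y), fT T i) ∧
    (∃ m, N < m ∧ m ≤ 2 * N ∧ ∑ i ∈ Ioc m (m + Y), fT T i ≤
      V P Y * (∏ p ∈ P, (1 - 1 / (p : ℝ)))⁻¹ * (1 + 2 ^ 25 * (1 / 2) ^ (2 * R)) +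
      Y * (N : ℝ) ^ (-(1 / 4) : ℝ)) := by
  have hN0 : (0 : ℝ) < N := by exact_mod_cast (by omega : 0 < N)
  have hM0 : 0 < ∏ p ∈ P, p := prod_pos fun p hp => (hP p hp).pos
  obtain ⟨M, hMd⟩ : ∃ M, M = ∏ p ∈ P, p := ⟨_, rfl⟩
  obtain ⟨J, hJd⟩ : ∃ J, J = N / M := ⟨_, rfl⟩
  obtain ⟨B, hB⟩ : ∃ B : ℝ, B = (∏ p ∈ P, (1 - 1 / (p : ℝ)))⁻¹ := ⟨_, rfl⟩
  obtain ⟨κ, hκ⟩ : ∃ κ : ℝ, κ = 2 ^ 25 * (1 / 2) ^ (2 * R) := ⟨_, rfl⟩
  obtain ⟨q, hq⟩ : ∃ q : ℝ, q = (N : ℝ) ^ (1 / 4 : ℝ) := ⟨_, rfl⟩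
  have hq0 : 0 < q := by rw [hq]; positivity
  have hq4 : q ^ 4 = N := by
    rw [hq, ← Real.rpow_natCast, ← Real.rpow_mul hN0.le]
    norm_num
  have hq2 : 4 ≤ q := by
    by_contra hcon
    push Not at hcon
    have h1 : q ^ 4 < 4 ^ 4 := pow_lt_pow_left₀ hcon hq0.le (by norm_num)
    rw [hq4] at h1
    have h2 : (256 : ℝ) ≤ N := by exact_mod_cast hN
    norm_num at h1
    linarith
  have hqi : (N : ℝ) ^ (-(1 / 4) : ℝ) = q⁻¹ := by rw [hq, ← Real.rpow_neg hN0.le]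
  have hMr : (0 : ℝ) < M := by rw [hMd]; exact_mod_cast hM0
  have hJle : M * (J + J) ≤ 2 * N := by
    have h1 : M * (N / M) ≤ N := Nat.mul_div_le N M
    rw [hJd]
    nlinarith
  have hJlt : ∀ j, J < j → N < M * j := by
    intro j hj
    rw [hJd, Nat.div_lt_iff_lt_mul (by rw [hMd]; exact hM0)] at hj
    rwa [mul_comm] at hj
  have hJr : q ^ 2 ≤ (J : ℝ) := by
    have h1 : N < M * (J + 1) := hJlt (J + 1) (by omega)
    have h2 : (N : ℝ) < M * (J + 1) := by exact_mod_cast h1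
    have h3 : (M : ℝ) ≤ q := by rw [hMd, hq]; exact hM
    have h4 : (N : ℝ) < q * (J + 1) := lt_of_lt_of_le h2 (by gcongr)
    rw [← hq4] at h4
    have h5 : q * q ^ 3 < q * ((J : ℝ) + 1) := by
      calc q * q ^ 3 = q ^ 4 := by ring
        _ < _ := h4
    have h6 : q ^ 3 < (J : ℝ) + 1 := lt_of_mul_lt_mul_left h5 hq0.le
    nlinarith
  have hJ0 : (0 : ℝ) < J := by nlinarith
  have hr := rows R hR T hT P hP N J J Y (T (3 * N)) hx (fun j hj => by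
      rw [← hMd]; exact (hJlt j hj).le) (hT (by rw [← hMd]; omega))
  rw [← hMd, ← hB, ← hκ] at hr
  obtain ⟨v, hv⟩ : ∃ v : ℝ, v = V P Y := ⟨_, rfl⟩
  have hv0 : 0 ≤ v := by rw [hv]; exact Nat.cast_nonneg _
  have hvY : v ≤ Y := by
    rw [hv]
    have : V P Y ≤ Y := by
      unfold V
      exact (card_filter_le _ _).trans (by rw [Nat.card_Icc]; omega)
    exact_mod_cast this
  rw [← hB, ← hκ, ← hv, hqi]
  rw [← hv] at hr
  have herr : v * ((T (3 * N) : ℝ) + 2) ^ (8 * R + 18) ≤ (Y * q⁻¹) * J := by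
    calc v * ((T (3 * N) : ℝ) + 2) ^ (8 * R + 18) ≤ Y * q := by
          rw [hq]
          exact mul_le_mul hvY hTN (by positivity) (Nat.cast_nonneg _)
      _ = (Y * q⁻¹) * q ^ 2 := by field_simp
      _ ≤ (Y * q⁻¹) * J := by gcongr
  have hcard : ((Ioc J (J + J)).card : ℝ) = J := by rw [Nat.card_Ioc]; simp
  have hne : (Ioc J (J + J)).Nonempty := by
    have : 0 < J := by exact_mod_cast hJ0
    exact ⟨J + J, by rw [mem_Ioc]; omega⟩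
  have hrow : ∀ j, ∑ h ∈ Icc 1 Y, fT T (M * j + h) = ∑ i ∈ Ioc (M * j) (M * j + Y), fT T i :=
    fun j => shift_sum (fT T) (M * j) Y
  obtain ⟨r1, r2⟩ := abs_le.1 hr
  constructor
  · obtain ⟨j, hj, hj2⟩ := exists_le_of_sum_le (f := fun _ : ℕ => v * B * (1 - κ) - Y * q⁻¹)
      (g := fun j => ∑ h ∈ Icc 1 Y, fT T (M * j + h)) hne (by
        rw [sum_const, nsmul_eq_mul, hcard]
        nlinarith)
    rw [mem_Ioc] at hj
    refine ⟨M * j, hJlt j hj.1, (Nat.mul_le_mul_left M hj.2).trans hJle, ?_⟩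
    rw [← hrow]
    exact hj2
  · obtain ⟨j, hj, hj2⟩ := exists_le_of_sum_le (g := fun _ : ℕ => v * B * (1 + κ) + Y * q⁻¹)
      (f := fun j => ∑ h ∈ Icc 1 Y, fT T (M * j + h)) hne (by
        rw [sum_const, nsmul_eq_mul, hcard]
        nlinarith)
    rw [mem_Ioc] at hj
    refine ⟨M * j, hJlt j hj.1, (Nat.mul_le_mul_left M hj.2).trans hJle, ?_⟩
    rw [← hrow]
    exact hj2

/-- powers of the logarithm vary slowly -/
theorem ratio (s ε : ℝ) (hε : 0 < ε) : ∀ᶠ N : ℕ in atTop, ∀ x : ℝ, (N : ℝ) ≤ x → x ≤ 4 * N →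
    (1 - ε) * (Real.log N) ^ s ≤ (Real.log x) ^ s ∧ (Real.log x) ^ s ≤ (1 + ε) * (Real.log N) ^ s := by
  have h1 : Tendsto (fun N : ℕ => (1 + 2 / Real.log N) ^ s) atTop (𝓝 1) := by
    have h2 : Tendsto (fun N : ℕ => 1 + 2 / Real.log N) atTop (𝓝 (1 + 0)) :=
      tendsto_const_nhds.add (tlog.const_div_atTop 2)
    rw [add_zero] at h2
    have h3 := h2.rpow_const (p := s) (Or.inl one_ne_zero)
    rwa [Real.one_rpow] at h3
  filter_upwards [h1.eventually (Ioo_mem_nhds (show (1 : ℝ) - ε < 1 by linarith) (show (1 : ℝ) < 1 + ε by linarith)),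
    tlog.eventually_ge_atTop 1, eventually_ge_atTop 1] with N g1 g2 g3
  intro x hx1 hx2
  have hN0 : (0 : ℝ) < N := by exact_mod_cast g3
  have hL : 0 < Real.log N := by linarith
  have hx0 : 0 < x := by linarith
  obtain ⟨r, hr⟩ : ∃ r, r = Real.log x / Real.log N := ⟨_, rfl⟩
  have hlx : Real.log x = r * Real.log N := by rw [hr]; field_simp
  have hr1 : 1 ≤ r := by
    rw [hr, one_le_div hL]
    exact Real.log_le_log hN0 hx1
  have hr2 : r ≤ 1 + 2 / Real.log N := by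
    rw [hr, div_le_iff₀ hL]
    have h4 : Real.log x ≤ Real.log N + 2 := by
      calc Real.log x ≤ Real.log (4 * N) := Real.log_le_log hx0 hx2
        _ = Real.log 4 + Real.log N := Real.log_mul (by norm_num) hN0.ne'
        _ ≤ _ := by
            have h5 : Real.log 4 = 2 * Real.log 2 := by
              rw [← Real.log_rpow (by norm_num)]
              norm_num
            have := Real.log_two_lt_d9
            linarith
    have h6 : (1 + 2 / Real.log N) * Real.log N = Real.log N + 2 := by field_simp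
    linarith
  have hLs : 0 < (Real.log N) ^ s := Real.rpow_pos_of_pos hL _
  rw [hlx, Real.mul_rpow (by linarith) hL.le]
  have hrs : 1 - ε ≤ r ^ s ∧ r ^ s ≤ 1 + ε := by
    rcases le_or_gt 0 s with hs | hs
    · have h5 : 1 ≤ r ^ s := Real.one_le_rpow hr1 hs
      have h6 : r ^ s ≤ (1 + 2 / Real.log N) ^ s := Real.rpow_le_rpow (by linarith) hr2 hs
      exact ⟨by linarith, by linarith [g1.2]⟩
    · have h5 : r ^ s ≤ 1 := Real.rpow_le_one_of_one_le_of_nonpos hr1 hs.le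
      have h6 : (1 + 2 / Real.log N) ^ s ≤ r ^ s :=
        Real.rpow_le_rpow_of_nonpos (by linarith) hr2 hs.le
      exact ⟨by linarith [g1.1], by linarith⟩
  exact ⟨mul_le_mul_of_nonneg_right hrs.1 hLs.le, mul_le_mul_of_nonneg_right hrs.2 hLs.le⟩

end Pool.Agent.U6.SM
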