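import Mathlib
import Pool.Agent.U6.SM.Row

set_option autoImplicit false

/-! # Maier's phenomenon for the mean values in the sieved model -/

open Filter Finset Topology

namespace Pool.Agent.U6.SM

open Pool.Agent.U839.Sv (W W_pos W_mono fT fT_nonneg fT_le dens T_small exists_R)
open Pool.Agent.U839.Thin (tlog)
open Pool.Agent.N610.MS (V rel)
open Pool.Agent.H378R2 (PW GoodS yy)

theorem good_empty (X : ℝ) : GoodS X ∅ := by
  refine ⟨by simp, ?_⟩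
  rw [Finset.sum_empty]
  positivity

theorem to_pr (T : ℕ → ℕ) (N m Y : ℕ) (h1 : 1 ≤ Real.log N) (hN : 1 ≤ N) (hm1 : N < m) (hm2 : m ≤ 2 * N)
    (hY : Y ≤ N) (hd : ∀ i, N ≤ i → fT T i / Real.log i ≤ 1) :
    ∑ i ∈ Ioc m (m + Y), fT T i - (2 / Real.log N) * ∑ i ∈ Ioc m (m + Y), fT T i ≤
      (∑ i ∈ Ioc m (m + Y), pr T i) * Real.log N ∧
    (∑ i ∈ Ioc m (m + Y), pr T i) * Real.log N ≤ ∑ i ∈ Ioc m (m + Y), fT T i := by
  have h2 : ∀ i ∈ Ioc m (m + Y), fT T i - (2 / Real.log N) * fT T i ≤ pr T i * Real.log N ∧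
      pr T i * Real.log N ≤ fT T i := by
    intro i hi
    rw [mem_Ioc] at hi
    exact pr_bd T N i h1 (by omega) (by omega) hN (hd i (by omega))
  constructor
  · rw [sum_mul, mul_sum, ← sum_sub_distrib]
    exact sum_le_sum fun m hm => (h2 m hm).1
  · rw [sum_mul]
    exact sum_le_sum fun m hm => (h2 m hm).2

theorem maier (T : ℕ → ℕ) (hT : Monotone T)
    (hTs : ∀ ε : ℝ, 0 < ε → ∀ᶠ n : ℕ in atTop, (T n : ℝ) ≤ (n : ℝ) ^ ε)
    (hTl : ∀ᶠ n : ℕ in atTop, Real.log n / 1000 ≤ T n) (a : ℝ) (ha : 0 < a) :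
    ∃ δ : ℝ, 0 < δ ∧ δ ≤ 1 ∧ ∀ᶠ N : ℕ in atTop,
      (∃ m, N < m ∧ m ≤ 2 * N ∧ (1 + δ) * (Real.log N) ^ (a - 1) ≤
        ∑ i ∈ Ioc m (m + ⌊(Real.log N) ^ a⌋₊), pr T i) ∧
      (∃ m, N < m ∧ m ≤ 2 * N ∧ ∑ i ∈ Ioc m (m + ⌊(Real.log (2 * N)) ^ a⌋₊), pr T i ≤
        (1 - δ) * (Real.log N) ^ (a - 1)) := by
  obtain ⟨κ', hκ', hc⟩ := cnt a 1 ha one_pos
  obtain ⟨δ₁, h1, h1', hc1⟩ := hc 1 1 one_pos (Or.inl rfl)
  obtain ⟨δ₂, h2, h2', hc2⟩ := hc 1 (-1) one_pos (Or.inr rfl)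
  obtain ⟨δ, hδd⟩ : ∃ δ, δ = min δ₁ δ₂ := ⟨_, rfl⟩
  have hδ : 0 < δ := by rw [hδd]; exact lt_min h1 h2
  have hδ1 : δ ≤ δ₁ := by rw [hδd]; exact min_le_left _ _
  have hδ2 : δ ≤ δ₂ := by rw [hδd]; exact min_le_right _ _
  refine ⟨δ, hδ, hδ1.trans h1', ?_⟩
  obtain ⟨R, hR, hRδ⟩ := exists_R (δ / 8) (by positivity)
  have e5 : ∀ᶠ N : ℕ in atTop, (N : ℝ) ^ (-(1 / 4) : ℝ) ≤ δ / 8 :=
    ((tendsto_rpow_neg_atTop (show (0 : ℝ) < 1 / 4 by norm_num)).comp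
      tendsto_natCast_atTop_atTop).eventually (eventually_le_nhds (by positivity))
  have e7 : ∀ᶠ N : ℕ in atTop, (Real.log N) ^ a ≤ 1 / 4 * N := by
    have h := (isLittleO_log_rpow_rpow_atTop a (s := 1) one_pos).bound (show (0 : ℝ) < 1 / 4 by norm_num)
    filter_upwards [tendsto_natCast_atTop_atTop.eventually h] with N hN
    rwa [Real.norm_of_nonneg (Real.rpow_nonneg (Real.log_natCast_nonneg _) _),
      Real.norm_of_nonneg (by positivity), Real.rpow_one] at hN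
  have e9 : ∀ᶠ N : ℕ in atTop, (2 : ℝ) ≤ (Real.log N) ^ κ' :=
    ((tendsto_rpow_atTop hκ').comp tlog).eventually_ge_atTop _
  filter_upwards [tendsto_natCast_atTop_atTop.eventually (hc1 (1 / 4) (by norm_num)),
    tendsto_natCast_atTop_atTop.eventually (hc2 (1 / 4) (by norm_num)),
    T_small T hTs (8 * R + 18) (by omega) (1 / 4) (by norm_num), tlog.eventually_ge_atTop (16 / δ),
    tlog.eventually_ge_atTop 1, e5, hTl, e7, ratio a (δ / 8) (by positivity), e9,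
    eventually_forall_ge_atTop.2 (dens T hTs 1 one_pos), eventually_ge_atTop 256]
    with N g1 g2 g3 g4 g5 g6 g7 g8 g9 g10 g11 g12
  have hN0 : (0 : ℝ) < N := by exact_mod_cast (by omega : 0 < N)
  have hL : 0 < Real.log N := by linarith
  have hlog : 2 / Real.log N ≤ δ / 8 := by
    rw [div_le_iff₀ hL]
    have := mul_le_mul_of_nonneg_left g4 (show (0 : ℝ) ≤ δ / 8 by positivity)
    calc (2 : ℝ) = δ / 8 * (16 / δ) := by field_simp; norm_num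
      _ ≤ _ := this
  have hPW : ∀ P : Finset ℕ, P ⊆ PW (N : ℝ) ∅ 1 → (∀ p ∈ P, p.Prime) ∧ ∀ p ∈ P, p ≤ T N := by
    intro P hP
    have h3 : ∀ p ∈ P, p.Prime ∧ p ≤ yy (N : ℝ) := by
      intro p hp
      have := hP hp
      unfold PW at this
      rw [mem_filter, mem_Icc] at this
      exact ⟨this.2.1, this.1.2⟩
    refine ⟨fun p hp => (h3 p hp).1, fun p hp => (h3 p hp).2.trans ?_⟩
    unfold yy
    exact Nat.floor_le_of_le g7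
  have e1 : (Real.log N) ^ (a - 1) = (Real.log N) ^ a / Real.log N := by
    rw [Real.rpow_sub hL, Real.rpow_one]
  have hκ0 : (0 : ℝ) ≤ 2 ^ 25 * (1 / 2) ^ (2 * R) := (kap_le R hR).1
  obtain ⟨κ, hκ⟩ : ∃ κ : ℝ, κ = 2 ^ 25 * (1 / 2) ^ (2 * R) := ⟨_, rfl⟩
  rw [← hκ] at hRδ hκ0
  constructor
  · obtain ⟨P, hP, hM, hB, hy1, -, -⟩ := g1 ∅ 1 (good_empty _)
    obtain ⟨hPp, hPT⟩ := hPW P hP
    obtain ⟨y, hy⟩ : ∃ y, y = (Real.log N) ^ a := ⟨_, rfl⟩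
    have hy0 : 0 < y := by rw [hy]; exact Real.rpow_pos_of_pos hL _
    have hrel := hy1 y (by rw [hy]) (by
      rw [hy]
      exact Real.rpow_le_rpow_of_exponent_le g5 (by linarith))
    have hYy : (⌊y⌋₊ : ℝ) ≤ y := Nat.floor_le hy0.le
    have hYN : ⌊y⌋₊ ≤ N := by
      have : (⌊y⌋₊ : ℝ) ≤ N := by
        refine hYy.trans ?_
        rw [hy]
        linarith
      exact_mod_cast this
    obtain ⟨⟨m, hm1, hm2, hm3⟩, -⟩ := exists_rows R hR T hT P hPp N ⌊y⌋₊ hPT hYN hM (by omega) g3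
    obtain ⟨q1, -⟩ := to_pr T N m ⌊y⌋₊ g5 (by omega) hm1 hm2 hYN g11
    obtain ⟨S, hS⟩ : ∃ S, S = ∑ i ∈ Ioc m (m + ⌊y⌋₊), fT T i := ⟨_, rfl⟩
    obtain ⟨Q, hQ⟩ : ∃ Q, Q = ∑ i ∈ Ioc m (m + ⌊y⌋₊), pr T i := ⟨_, rfl⟩
    obtain ⟨B, hBd⟩ : ∃ B : ℝ, B = ∏ p ∈ P, (1 - 1 / (p : ℝ)) := ⟨_, rfl⟩
    unfold rel at hrel
    rw [← hBd] at hrel hB hm3
    rw [← hS, ← hQ] at q1
    rw [← hS, ← hκ] at hm3
    have hB0 : 0 < B := by linarith
    have hVB : (1 + 2 * δ₁) * y ≤ V P ⌊y⌋₊ * B⁻¹ := by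
      have k1 : 1 + 2 * δ₁ ≤ (V P ⌊y⌋₊ : ℝ) / (y * B) := by linarith
      rw [le_div_iff₀ (by positivity)] at k1
      rw [← div_eq_mul_inv, le_div_iff₀ hB0]
      linarith
    refine ⟨m, hm1, hm2, ?_⟩
    rw [← hy, ← hQ, e1, ← hy, ← mul_div_assoc, div_le_iff₀ hL]
    have hSl : (1 + 3 / 2 * δ) * y ≤ S := by
      have k2 : (⌊y⌋₊ : ℝ) * (N : ℝ) ^ (-(1 / 4) : ℝ) ≤ y * (δ / 8) := by
        apply mul_le_mul hYy g6 (by positivity) hy0.le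
      have k3 : (1 + 2 * δ₁) * y * (1 - κ) ≤ V P ⌊y⌋₊ * B⁻¹ * (1 - κ) := by
        apply mul_le_mul_of_nonneg_right hVB
        linarith
      have k4 : (1 + 2 * δ) * (1 - δ / 8) * y ≤ (1 + 2 * δ₁) * y * (1 - κ) := by
        have : (1 + 2 * δ) * (1 - δ / 8) ≤ (1 + 2 * δ₁) * (1 - κ) := by
          apply mul_le_mul (by linarith) (by linarith) (by linarith) (by linarith)
        calc (1 + 2 * δ) * (1 - δ / 8) * y ≤ (1 + 2 * δ₁) * (1 - κ) * y := by gcongr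
          _ = _ := by ring
      have k8 : 0 ≤ δ * (1 - δ) * y := mul_nonneg (mul_nonneg hδ.le (by linarith)) hy0.le
      nlinarith [k2, k3, k4, k8, hm3]
    have hS0 : 0 ≤ S := by rw [hS]; exact sum_nonneg fun i _ => fT_nonneg T i
    have k5 : (2 / Real.log N) * S ≤ δ / 8 * S := by gcongr
    have k6 : (1 - δ / 8) * ((1 + 3 / 2 * δ) * y) ≤ (1 - δ / 8) * S := by
      apply mul_le_mul_of_nonneg_left hSl
      linarith
    have k7 : (1 + δ) * y ≤ (1 - δ / 8) * ((1 + 3 / 2 * δ) * y) := by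
      have : 1 + δ ≤ (1 - δ / 8) * (1 + 3 / 2 * δ) := by nlinarith
      calc (1 + δ) * y ≤ (1 - δ / 8) * (1 + 3 / 2 * δ) * y := by gcongr
        _ = _ := by ring
    linarith
  · obtain ⟨P, hP, hM, hB, hy1, -, -⟩ := g2 ∅ 1 (good_empty _)
    obtain ⟨hPp, hPT⟩ := hPW P hP
    obtain ⟨y, hy⟩ : ∃ y, y = (Real.log (2 * N)) ^ a := ⟨_, rfl⟩
    obtain ⟨r1, r2⟩ := g9 (2 * N) (by linarith) (by linarith)
    have hlog2 : Real.log N ≤ Real.log (2 * N) := Real.log_le_log hN0 (by linarith)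
    have hy0 : 0 < y := by rw [hy]; exact Real.rpow_pos_of_pos (by linarith) _
    have hyN : (Real.log N) ^ a ≤ y := by rw [hy]; exact Real.rpow_le_rpow hL.le hlog2 ha.le
    have hy2 : y ≤ (1 + δ / 8) * (Real.log N) ^ a := by rw [hy]; exact r2
    have hrel := hy1 y hyN (by
      rw [Real.rpow_add hL]
      refine hy2.trans ?_
      rw [mul_comm]
      gcongr
      linarith)
    have hYy : (⌊y⌋₊ : ℝ) ≤ y := Nat.floor_le hy0.le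
    have hYN : ⌊y⌋₊ ≤ N := by
      have : (⌊y⌋₊ : ℝ) ≤ N := by
        refine hYy.trans (hy2.trans ?_)
        have : 0 ≤ (Real.log N) ^ a := by positivity
        nlinarith
      exact_mod_cast this
    obtain ⟨-, ⟨m, hm1, hm2, hm3⟩⟩ := exists_rows R hR T hT P hPp N ⌊y⌋₊ hPT hYN hM (by omega) g3
    obtain ⟨-, q1⟩ := to_pr T N m ⌊y⌋₊ g5 (by omega) hm1 hm2 hYN g11
    obtain ⟨S, hS⟩ : ∃ S, S = ∑ i ∈ Ioc m (m + ⌊y⌋₊), fT T i := ⟨_, rfl⟩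
    obtain ⟨Q, hQ⟩ : ∃ Q, Q = ∑ i ∈ Ioc m (m + ⌊y⌋₊), pr T i := ⟨_, rfl⟩
    obtain ⟨B, hBd⟩ : ∃ B : ℝ, B = ∏ p ∈ P, (1 - 1 / (p : ℝ)) := ⟨_, rfl⟩
    unfold rel at hrel
    rw [← hBd] at hrel hB hm3
    rw [← hS, ← hQ] at q1
    rw [← hS, ← hκ] at hm3
    have hB0 : 0 < B := by linarith
    have hVB : V P ⌊y⌋₊ * B⁻¹ ≤ (1 - 2 * δ₂) * y := by
      have k1 : (V P ⌊y⌋₊ : ℝ) / (y * B) ≤ 1 - 2 * δ₂ := by linarith
      rw [div_le_iff₀ (by positivity)] at k1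
      rw [← div_eq_mul_inv, div_le_iff₀ hB0]
      linarith
    refine ⟨m, hm1, hm2, ?_⟩
    rw [← hy, ← hQ, e1, ← mul_div_assoc, le_div_iff₀ hL]
    have hV0 : 0 ≤ (V P ⌊y⌋₊ : ℝ) * B⁻¹ := by positivity
    have k2 : (⌊y⌋₊ : ℝ) * (N : ℝ) ^ (-(1 / 4) : ℝ) ≤ y * (δ / 8) :=
      mul_le_mul hYy g6 (by positivity) hy0.le
    have k3 : V P ⌊y⌋₊ * B⁻¹ * κ ≤ y * (δ / 8) := by
      apply mul_le_mul _ hRδ hκ0 hy0.le
      refine hVB.trans ?_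
      nlinarith
    have k4 : (1 - 2 * δ₂) * y ≤ (1 - 2 * δ) * y := by
      apply mul_le_mul_of_nonneg_right (by linarith) hy0.le
    nlinarith

end Pool.Agent.U6.SM
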