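import Mathlib
import Pool.Agent.U6.SM.Crowd
import Pool.Agent.U6.SM.Mai

set_option autoImplicit false

/-! # The numbers `L_a`, `U_a` in the sieved models -/

open Filter Finset Topology MeasureTheory ProbabilityTheory

namespace Pool.Agent.U6.SM

open Pool.Agent.U839.Sv (fT fT_nonneg sub_pow exists_R)
open Pool.Agent.U839.Gb (SS SS_eq)
open Pool.Agent.U839.Thin (tlog)

variable {Ω : Type*} [MeasurableSpace Ω] {μ : Measure Ω} [IsProbabilityMeasure μ]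

/-- number of elements of `Q` in `(x, x + (log x) ^ a]` -/
noncomputable def cn (Q : Set ℕ) (a x : ℝ) : ℝ :=
  ({m : ℕ | m ∈ Q ∧ x < m ∧ (m : ℝ) ≤ x + (Real.log x) ^ a}.ncard : ℝ)

/-- the normalized number -/
noncomputable def RR (Q : Set ℕ) (a x : ℝ) : ℝ := Real.log x / (Real.log x) ^ a * cn Q a x

/-- the concentration property -/
def Con (μ : Measure Ω) (E : ℕ → Set Ω) (ω : Ω) : Prop := ∀ i : ℕ, ∀ᶠ n : ℕ in atTop, ∀ K : ℕ, K ≤ n →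
  |SS E (Ioc n (n + K)) ω - ∑ m ∈ Ioc n (n + K), μ.real (E m)| ≤
    1 / ((i : ℝ) + 1) * max (∑ m ∈ Ioc n (n + K), μ.real (E m)) ((Real.log n) ^ (1 + 1 / ((i : ℝ) + 1)))

theorem con_ae {E : ℕ → Set Ω} (hm : ∀ n, MeasurableSet (E n)) (hE : iIndepSet E μ) :
    ∀ᵐ ω ∂μ, Con μ E ω := by
  unfold Con
  rw [ae_all_iff]
  intro i
  have h : 0 < 1 / ((i : ℝ) + 1) := by positivity
  refine conc hm hE (1 / ((i : ℝ) + 1)) (1 / ((i : ℝ) + 1)) h ?_ h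
  rw [div_le_one (by positivity)]
  have : (0 : ℝ) ≤ i := Nat.cast_nonneg i
  linarith

theorem con_use {E : ℕ → Set Ω} {ω : Ω} (h : Con μ E ω) (ε δ : ℝ) (hε : 0 < ε) (hδ : 0 < δ) :
    ∀ᶠ n : ℕ in atTop, ∀ K : ℕ, K ≤ n →
      |SS E (Ioc n (n + K)) ω - ∑ m ∈ Ioc n (n + K), μ.real (E m)| ≤
        ε * max (∑ m ∈ Ioc n (n + K), μ.real (E m)) ((Real.log n) ^ (1 + δ)) := by
  obtain ⟨i, hi⟩ := exists_nat_one_div_lt (lt_min hε hδ)
  filter_upwards [h i, tlog.eventually_ge_atTop 1] with n hn hL K hK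
  refine (hn K hK).trans ?_
  have h1 : 1 / ((i : ℝ) + 1) ≤ ε := (hi.le).trans (min_le_left _ _)
  have h2 : 1 / ((i : ℝ) + 1) ≤ δ := (hi.le).trans (min_le_right _ _)
  have h3 : (Real.log n) ^ (1 + 1 / ((i : ℝ) + 1)) ≤ (Real.log n) ^ (1 + δ) :=
    Real.rpow_le_rpow_of_exponent_le hL (by linarith)
  have h4 : 0 ≤ max (∑ m ∈ Ioc n (n + K), μ.real (E m)) ((Real.log n) ^ (1 + δ)) :=
    le_max_of_le_left (sum_nonneg fun _ _ => measureReal_nonneg)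
  calc 1 / ((i : ℝ) + 1) * max (∑ m ∈ Ioc n (n + K), μ.real (E m)) ((Real.log n) ^ (1 + 1 / ((i : ℝ) + 1)))
      ≤ 1 / ((i : ℝ) + 1) * max (∑ m ∈ Ioc n (n + K), μ.real (E m)) ((Real.log n) ^ (1 + δ)) := by
        apply mul_le_mul_of_nonneg_left (max_le_max le_rfl h3) (by positivity)
    _ ≤ _ := mul_le_mul_of_nonneg_right h1 h4

omit [MeasurableSpace Ω] in
theorem cn_eq (E : ℕ → Set Ω) (ω : Ω) (a x : ℝ) (hx : 0 ≤ x) (hh : 0 ≤ (Real.log x) ^ a) :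
    cn {m | ω ∈ E m} a x = SS E (Ioc ⌊x⌋₊ (⌊x⌋₊ + (⌊x + (Real.log x) ^ a⌋₊ - ⌊x⌋₊))) ω := by
  classical
  rw [SS_eq]
  unfold cn
  congr 1
  rw [← Set.ncard_coe_finset]
  congr 1
  have h1 : ⌊x⌋₊ ≤ ⌊x + (Real.log x) ^ a⌋₊ := Nat.floor_mono (by linarith)
  ext m
  simp only [Set.mem_ofPred_eq, coe_filter, mem_Ioc]
  rw [Nat.add_sub_cancel' h1, Nat.floor_lt hx, Nat.le_floor_iff (by linarith)]
  tauto

theorem ev_floor {p : ℕ → Prop} (h : ∀ᶠ n : ℕ in atTop, p n) : ∀ᶠ x : ℝ in atTop, p ⌊x⌋₊ :=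
  tendsto_nat_floor_atTop.eventually h

/-- closeness to one -/
theorem main_A {E : ℕ → Set Ω} {ω : Ω} (hc : Con μ E ω) (T : ℕ → ℕ) (hT : Monotone T)
    (hl : ∀ n, μ.real (E n) = pr T n) (A : ℝ) (hA : 0 < A)
    (hTA : ∀ᶠ n : ℕ in atTop, (T n : ℝ) ≤ (Real.log n) ^ A) (R : ℕ) (hR : 13 ≤ R) (a : ℝ) (ha2 : 2 < a)
    (ha : A * (8 * R + 18) < a) (ε : ℝ) (hε : 0 < ε) :
    ∀ᶠ x : ℝ in atTop, |RR {m | ω ∈ E m} a x - 1| ≤ 2 ^ 25 * (1 / 2) ^ (2 * R) + ε := by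
  obtain ⟨a', ha', haa⟩ := exists_between (max_lt ha2 ha)
  obtain ⟨ha'2, ha'A⟩ := max_lt_iff.1 ha'
  obtain ⟨δ, hδ⟩ : ∃ δ, δ = a' - 2 := ⟨_, rfl⟩
  have hδ0 : 0 < δ := by rw [hδ]; linarith
  obtain ⟨e, he⟩ : ∃ e, e = min (ε / 20) (1 / 8) := ⟨_, rfl⟩
  have he0 : 0 < e := by rw [he]; exact lt_min (by linarith) (by norm_num)
  have he1 : e ≤ ε / 20 := by rw [he]; exact min_le_left _ _
  have he2 : e ≤ 1 / 8 := by rw [he]; exact min_le_right _ _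
  have k3 : ∀ᶠ n : ℕ in atTop, (Real.log n) ^ a ≤ 1 / 4 * n := by
    have h := (isLittleO_log_rpow_rpow_atTop a (s := 1) one_pos).bound (show (0 : ℝ) < 1 / 4 by norm_num)
    filter_upwards [tendsto_natCast_atTop_atTop.eventually h] with N hN
    rwa [Real.norm_of_nonneg (Real.rpow_nonneg (Real.log_natCast_nonneg _) _),
      Real.norm_of_nonneg (by positivity), Real.rpow_one] at hN
  have k4 : Tendsto (fun n : ℕ => (Real.log n) ^ (a - a')) atTop atTop :=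
    (tendsto_rpow_atTop (by linarith)).comp tlog
  have k5 : Tendsto (fun n : ℕ => (Real.log n) ^ a) atTop atTop := (tendsto_rpow_atTop (by linarith)).comp tlog
  filter_upwards [ev_floor (mean_window T hT A hA hTA R hR a' ha'A e he0 (by linarith)),
    ev_floor (con_use hc e δ he0 hδ0), ev_floor (ratio a e he0), ev_floor (ratio 1 e he0), ev_floor k3,
    ev_floor (k4.eventually_ge_atTop 4), ev_floor (k5.eventually_ge_atTop (2 / e)),
    ev_floor (tlog.eventually_ge_atTop 1), ev_floor (eventually_ge_atTop 4), eventually_ge_atTop (4 : ℝ)]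
    with x g1 g2 g3 g4 g5 g6 g7 g8 g9 g10
  obtain ⟨n, hn⟩ : ∃ n, n = ⌊x⌋₊ := ⟨_, rfl⟩
  rw [← hn] at g1 g2 g3 g4 g5 g6 g7 g8 g9
  have hx0 : 0 < x := by linarith
  have hnx : (n : ℝ) ≤ x := by rw [hn]; exact Nat.floor_le hx0.le
  have hxn : x < n + 1 := by rw [hn]; exact Nat.lt_floor_add_one x
  have hn4 : (4 : ℝ) ≤ n := by exact_mod_cast g9
  have hL : 0 < Real.log n := by linarith
  obtain ⟨r1, r2⟩ := g3 x hnx (by linarith)
  obtain ⟨r3, r4⟩ := g4 x hnx (by linarith)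
  rw [Real.rpow_one, Real.rpow_one] at r3 r4
  have hlx : Real.log n ≤ Real.log x := Real.log_le_log (by linarith) hnx
  obtain ⟨h, hh⟩ : ∃ h, h = (Real.log x) ^ a := ⟨_, rfl⟩
  have hh0 : 0 < h := by rw [hh]; exact Real.rpow_pos_of_pos (by linarith) _
  unfold RR
  rw [cn_eq E ω a x hx0.le (by rw [← hh]; exact hh0.le), ← hn, ← hh]
  rw [← hh] at r1 r2
  obtain ⟨K, hK⟩ : ∃ K, K = ⌊x + h⌋₊ - n := ⟨_, rfl⟩
  rw [← hK]
  have hfl : n ≤ ⌊x + h⌋₊ := by rw [hn]; exact Nat.floor_mono (by linarith)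
  have hKr : (K : ℝ) = ⌊x + h⌋₊ - n := by rw [hK, Nat.cast_sub hfl]
  have hK1 : (K : ℝ) ≤ h + 1 := by
    have : (⌊x + h⌋₊ : ℝ) ≤ x + h := Nat.floor_le (by linarith)
    linarith
  have hK2 : h - 1 ≤ K := by
    have : x + h < ⌊x + h⌋₊ + 1 := Nat.lt_floor_add_one _
    linarith
  obtain ⟨H, hH⟩ : ∃ H, H = (Real.log n) ^ a := ⟨_, rfl⟩
  rw [← hH] at r1 r2 g5 g7
  have hHe : 2 ≤ H * e := by
    rw [div_le_iff₀ he0] at g7
    exact g7
  have hH16 : 16 ≤ H := by nlinarith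
  have h78 : 7 / 8 * H ≤ h := by nlinarith
  have h98 : h ≤ 9 / 8 * H := by nlinarith
  have h1e : 1 ≤ e * h := by nlinarith
  have hKn : K ≤ n := by
    have : (K : ℝ) ≤ n := by linarith
    exact_mod_cast this
  have ea : H = (Real.log n) ^ (a - a') * (Real.log n) ^ a' := by
    rw [hH, ← Real.rpow_add hL]
    congr 1
    ring
  have hp' : 0 < (Real.log n) ^ a' := by positivity
  have hKa : (Real.log n) ^ a' ≤ K := by
    have : 4 * (Real.log n) ^ a' ≤ H := by rw [ea]; gcongr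
    linarith
  have m1 := g1 K hKa hKn
  have m2 := g2 K hKn
  have hmean : ∑ m ∈ Ioc n (n + K), μ.real (E m) = ∑ m ∈ Ioc n (n + K), pr T m :=
    sum_congr rfl fun m _ => hl m
  rw [hmean] at m2
  obtain ⟨Q, hQ⟩ : ∃ Q, Q = ∑ m ∈ Ioc n (n + K), pr T m := ⟨_, rfl⟩
  obtain ⟨Z, hZ⟩ : ∃ Z, Z = SS E (Ioc n (n + K)) ω := ⟨_, rfl⟩
  obtain ⟨u, hu⟩ : ∃ u : ℝ, u = K / Real.log n := ⟨_, rfl⟩
  obtain ⟨κ, hκ⟩ : ∃ κ : ℝ, κ = (2 : ℝ) ^ 25 * (1 / 2) ^ (2 * R) := ⟨_, rfl⟩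
  obtain ⟨κ0, κ1⟩ := kap_le R hR
  rw [← hκ] at m1 κ0 κ1 ⊢
  rw [← hQ, ← hu] at m1
  rw [← hQ, ← hZ] at m2
  rw [← hZ]
  have hu0 : 0 < u := by rw [hu]; exact div_pos (hp'.trans_le hKa) hL
  have hup : (Real.log n) ^ (1 + δ) ≤ u := by
    rw [hu, le_div_iff₀ hL]
    have e1 : (Real.log n) ^ (1 + δ) * Real.log n = (Real.log n) ^ a' := by
      have : a' = (1 + δ) + 1 := by rw [hδ]; ring
      rw [this, Real.rpow_add hL (1 + δ) 1, Real.rpow_one]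
    rw [e1]
    exact hKa
  have hQ2 : Q ≤ 2 * u := by
    have := (abs_le.1 m1).2
    nlinarith
  have hmax : max Q ((Real.log n) ^ (1 + δ)) ≤ 2 * u := max_le hQ2 (by linarith)
  have m3 : |Z - Q| ≤ e * (2 * u) := m2.trans (by gcongr)
  have m4 : |Z - u| ≤ (κ + 3 * e) * u := by
    have : |Z - u| ≤ |Z - Q| + |Q - u| := abs_sub_le _ _ _
    linarith
  obtain ⟨ρ, hρ⟩ : ∃ ρ, ρ = Real.log x / h * u := ⟨_, rfl⟩
  have hρ2 : ρ = (Real.log x / Real.log n) * (K / h) := by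
    rw [hρ, hu]
    field_simp
  have s1 : 1 ≤ Real.log x / Real.log n := by rwa [one_le_div hL]
  have s2 : Real.log x / Real.log n ≤ 1 + e := by rw [div_le_iff₀ hL]; exact r4
  have s3 : 1 - e ≤ K / h := by rw [le_div_iff₀ hh0]; nlinarith
  have s4 : K / h ≤ 1 + e := by rw [div_le_iff₀ hh0]; nlinarith
  have hρl : 1 - e ≤ ρ := by rw [hρ2]; nlinarith
  have hρu : ρ ≤ 1 + 3 * e := by
    rw [hρ2]
    calc Real.log x / Real.log n * (K / h) ≤ (1 + e) * (1 + e) := by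
          apply mul_le_mul s2 s4 (by linarith) (by linarith)
      _ ≤ 1 + 3 * e := by nlinarith
  have hlh : 0 ≤ Real.log x / h := by
    have : 0 ≤ Real.log x := by linarith
    positivity
  have e3 : Real.log x / h * Z - 1 = Real.log x / h * (Z - u) + (ρ - 1) := by rw [hρ]; ring
  rw [e3]
  have m5 : |Real.log x / h * (Z - u)| ≤ ρ * (κ + 3 * e) := by
    rw [abs_mul, abs_of_nonneg hlh]
    calc Real.log x / h * |Z - u| ≤ Real.log x / h * ((κ + 3 * e) * u) := by gcongr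
      _ = ρ * (κ + 3 * e) := by rw [hρ]; ring
  have m6 : |ρ - 1| ≤ 3 * e := by
    rw [abs_le]
    constructor <;> linarith
  calc |Real.log x / h * (Z - u) + (ρ - 1)| ≤ |Real.log x / h * (Z - u)| + |ρ - 1| := abs_add_le _ _
    _ ≤ ρ * (κ + 3 * e) + 3 * e := add_le_add m5 m6
    _ ≤ (1 + 3 * e) * (κ + 3 * e) + 3 * e := by gcongr
    _ ≤ κ + ε := by nlinarith

end Pool.Agent.U6.SM
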