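import Mathlib
import Pool.Agent.U6.SM.Fin

set_option autoImplicit false

/-! # The numbers `L_a`, `U_a` in the sieved models: small exponents, Maier's phenomenon -/

open Filter Finset Topology MeasureTheory ProbabilityTheory

namespace Pool.Agent.U6.SM

open Pool.Agent.U839.Sv (fT fT_nonneg sub_pow exists_R)
open Pool.Agent.U839.Gb (SS SS_eq)
open Pool.Agent.U839.Thin (tlog)

variable {Ω : Type*} [MeasurableSpace Ω] {μ : Measure Ω} [IsProbabilityMeasure μ]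

omit [MeasurableSpace Ω] in
theorem SS_mono (E : ℕ → Set Ω) (ω : Ω) {s t : Finset ℕ} (h : s ⊆ t) : SS E s ω ≤ SS E t ω := by
  classical
  rw [SS_eq, SS_eq]
  exact_mod_cast card_le_card (filter_subset_filter _ h)

omit [MeasurableSpace Ω] in
theorem SS_win (E : ℕ → Set Ω) (ω : Ω) (n : ℕ) {K K' : ℕ} (h : K ≤ K') :
    SS E (Ioc n (n + K)) ω ≤ SS E (Ioc n (n + K')) ω :=
  SS_mono E ω (Ioc_subset_Ioc le_rfl (by omega))

omit [MeasurableSpace Ω] in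
theorem RR_nat (E : ℕ → Set Ω) (ω : Ω) (a : ℝ) (n : ℕ) (h : 0 ≤ (Real.log n) ^ a) :
    RR {m | ω ∈ E m} a (n : ℝ) =
      Real.log n / (Real.log n) ^ a * SS E (Ioc n (n + ⌊(Real.log n) ^ a⌋₊)) ω := by
  unfold RR
  rw [cn_eq E ω a n (Nat.cast_nonneg n) h, Nat.floor_natCast]
  have h1 : ⌊(n : ℝ) + (Real.log n) ^ a⌋₊ = n + ⌊(Real.log n) ^ a⌋₊ := by
    rw [add_comm, Nat.floor_add_natCast h, add_comm]
  rw [h1, Nat.add_sub_cancel_left]

theorem freq_nat {p : ℝ → Prop} (h : ∃ᶠ n : ℕ in atTop, p n) : ∃ᶠ x : ℝ in atTop, p x :=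
  tendsto_natCast_atTop_atTop.frequently h

omit [MeasurableSpace Ω] in
theorem main_B {E : ℕ → Set Ω} {ω : Ω} (a b : ℝ) (hab : a ≤ b)
    (h : ∃ᶠ n : ℕ in atTop, ∀ m ∈ Ioc n (n + ⌊(Real.log n) ^ b⌋₊), ω ∉ E m) :
    ∃ᶠ x : ℝ in atTop, RR {m | ω ∈ E m} a x ≤ 0 := by
  classical
  apply freq_nat
  refine (h.and_eventually (tlog.eventually_ge_atTop 1)).mono ?_
  rintro n ⟨h1, h2⟩
  have hL : 0 < Real.log n := by linarith
  rw [RR_nat E ω a n (by positivity)]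
  have h3 : ⌊(Real.log n) ^ a⌋₊ ≤ ⌊(Real.log n) ^ b⌋₊ :=
    Nat.floor_mono (Real.rpow_le_rpow_of_exponent_le h2 hab)
  have h4 : SS E (Ioc n (n + ⌊(Real.log n) ^ b⌋₊)) ω = 0 := by
    rw [SS_eq]
    rw [filter_false_of_mem h1]
    simp
  have h5 := SS_win E ω n h3
  rw [h4] at h5
  have h6 : 0 ≤ Real.log n / (Real.log n) ^ a := by positivity
  exact mul_nonpos_of_nonneg_of_nonpos h6 h5

omit [MeasurableSpace Ω] in
theorem main_C {E : ℕ → Set Ω} {ω : Ω} (a b s B : ℝ) (hs : a - 1 < s) (hb : b ≤ a)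
    (h : ∃ᶠ n : ℕ in atTop, (Real.log n) ^ s ≤ SS E (Ioc n (n + ⌊(Real.log n) ^ b⌋₊)) ω) :
    ∃ᶠ x : ℝ in atTop, B ≤ RR {m | ω ∈ E m} a x := by
  apply freq_nat
  have k1 : Tendsto (fun n : ℕ => (Real.log n) ^ (1 - a + s)) atTop atTop :=
    (tendsto_rpow_atTop (by linarith)).comp tlog
  refine (h.and_eventually ((tlog.eventually_ge_atTop 1).and (k1.eventually_ge_atTop B))).mono ?_
  rintro n ⟨h1, h2, h3⟩
  have hL : 0 < Real.log n := by linarith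
  rw [RR_nat E ω a n (by positivity)]
  have h4 : ⌊(Real.log n) ^ b⌋₊ ≤ ⌊(Real.log n) ^ a⌋₊ :=
    Nat.floor_mono (Real.rpow_le_rpow_of_exponent_le h2 hb)
  have h5 := h1.trans (SS_win E ω n h4)
  refine h3.trans ?_
  rw [Real.rpow_add hL, Real.rpow_sub hL, Real.rpow_one]
  gcongr

/-- Maier's phenomenon -/
theorem main_D {E : ℕ → Set Ω} {ω : Ω} (hc : Con μ E ω) (T : ℕ → ℕ) (hT : Monotone T)
    (hl : ∀ n, μ.real (E n) = pr T n)
    (hTs : ∀ ε : ℝ, 0 < ε → ∀ᶠ n : ℕ in atTop, (T n : ℝ) ≤ (n : ℝ) ^ ε)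
    (hTl : ∀ᶠ n : ℕ in atTop, Real.log n / 1000 ≤ T n) (a : ℝ) (ha2 : 2 < a) :
    ∃ δ : ℝ, 0 < δ ∧ (∃ᶠ x : ℝ in atTop, 1 + δ ≤ RR {m | ω ∈ E m} a x) ∧
      (∃ᶠ x : ℝ in atTop, RR {m | ω ∈ E m} a x ≤ 1 - δ) := by
  obtain ⟨δ, hδ, hδ1, hM⟩ := maier T hT hTs hTl a (by linarith)
  obtain ⟨η, hη⟩ : ∃ η, η = (a - 2) / 2 := ⟨_, rfl⟩
  have hη0 : 0 < η := by rw [hη]; linarith
  have k3 : ∀ᶠ n : ℕ in atTop, (Real.log n) ^ a ≤ 1 / 4 * n := by
    have h := (isLittleO_log_rpow_rpow_atTop a (s := 1) one_pos).bound (show (0 : ℝ) < 1 / 4 by norm_num)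
    filter_upwards [tendsto_natCast_atTop_atTop.eventually h] with N hN
    rwa [Real.norm_of_nonneg (Real.rpow_nonneg (Real.log_natCast_nonneg _) _),
      Real.norm_of_nonneg (by positivity), Real.rpow_one] at hN
  have k4 : Tendsto (fun n : ℕ => (Real.log n) ^ η) atTop atTop := (tendsto_rpow_atTop hη0).comp tlog
  have key : ∀ᶠ N : ℕ in atTop,
      (∃ m : ℕ, N < m ∧ 1 + δ / 2 ≤ RR {m | ω ∈ E m} a m) ∧
      (∃ m : ℕ, N < m ∧ RR {m | ω ∈ E m} a m ≤ 1 - δ / 2) := by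
    filter_upwards [hM, eventually_forall_ge_atTop.2 (con_use hc (δ / 8) η (by positivity) hη0),
      ratio (1 - a) (δ / 8) (by positivity), ratio (1 + η) (δ / 8) (by positivity), ratio a (δ / 8) (by positivity),
      k3, k4.eventually_ge_atTop 2, tlog.eventually_ge_atTop 1, eventually_ge_atTop 4]
      with N g1 g2 g3 g4 g5 g6 g7 g8 g9
    obtain ⟨⟨m₁, p1, p2, p3⟩, ⟨m₂, q1, q2, q3⟩⟩ := g1
    have hN4 : (4 : ℝ) ≤ N := by exact_mod_cast g9
    have hL : 0 < Real.log N := by linarith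
    obtain ⟨g, hg⟩ : ∃ g, g = (Real.log N) ^ (a - 1) := ⟨_, rfl⟩
    have hg0 : 0 < g := by rw [hg]; positivity
    rw [← hg] at p3 q3
    have hgi : g * (Real.log N) ^ (1 - a) = 1 := by
      rw [hg, ← Real.rpow_add hL]
      have : a - 1 + (1 - a) = 0 := by ring
      rw [this, Real.rpow_zero]
    have hgN : (1 + δ / 8) * (Real.log N) ^ (1 + η) ≤ g := by
      have e1 : g = (Real.log N) ^ η * (Real.log N) ^ (1 + η) := by
        rw [hg, ← Real.rpow_add hL]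
        congr 1
        rw [hη]
        ring
      rw [e1]
      gcongr
      linarith
    obtain ⟨r1, r2⟩ := g5 (2 * N) (by linarith) (by linarith)
    have hlog2 : Real.log N ≤ Real.log (2 * N) := Real.log_le_log (by linarith) (by linarith)
    -- common facts for `m` in `(N, 2 N]`
    have hcom : ∀ m : ℕ, N < m → m ≤ 2 * N →
        (1 - δ / 8) * (Real.log N) ^ (1 - a) ≤ (Real.log m) ^ (1 - a) ∧
        (Real.log m) ^ (1 - a) ≤ (1 + δ / 8) * (Real.log N) ^ (1 - a) ∧ (Real.log m) ^ (1 + η) ≤ g ∧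
        Real.log N ≤ Real.log m ∧ Real.log m ≤ Real.log (2 * N) := by
      intro m hm1 hm2
      have hmr1 : (N : ℝ) ≤ m := by exact_mod_cast hm1.le
      have hmr2 : (m : ℝ) ≤ 2 * N := by exact_mod_cast hm2
      obtain ⟨a1, a2⟩ := g3 m hmr1 (by linarith)
      obtain ⟨-, a4⟩ := g4 m hmr1 (by linarith)
      exact ⟨a1, a2, a4.trans hgN, Real.log_le_log (by linarith) hmr1, Real.log_le_log (by linarith) hmr2⟩
    have hval : ∀ m : ℕ, N < m → m ≤ 2 * N → RR {m | ω ∈ E m} a m =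
        (Real.log m) ^ (1 - a) * SS E (Ioc m (m + ⌊(Real.log m) ^ a⌋₊)) ω := by
      intro m hm1 hm2
      obtain ⟨-, -, -, a4, -⟩ := hcom m hm1 hm2
      have hLm : 0 < Real.log m := by linarith
      rw [RR_nat E ω a m (by positivity), Real.rpow_sub hLm, Real.rpow_one]
    have hmean : ∀ m K : ℕ, ∑ i ∈ Ioc m (m + K), μ.real (E i) = ∑ i ∈ Ioc m (m + K), pr T i :=
      fun m K => sum_congr rfl fun i _ => hl i
    constructor
    · refine ⟨m₁, p1, ?_⟩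
      obtain ⟨a1, a2, a3, a4, a5⟩ := hcom m₁ p1 p2
      rw [hval m₁ p1 p2]
      have hY : ⌊(Real.log N) ^ a⌋₊ ≤ m₁ := by
        have : (⌊(Real.log N) ^ a⌋₊ : ℝ) ≤ N := (Nat.floor_le (by positivity)).trans (by linarith)
        have h3 : ⌊(Real.log N) ^ a⌋₊ ≤ N := by exact_mod_cast this
        omega
      have hY2 : ⌊(Real.log N) ^ a⌋₊ ≤ ⌊(Real.log m₁) ^ a⌋₊ :=
        Nat.floor_mono (Real.rpow_le_rpow hL.le a4 (by linarith))
      have c1 := g2 m₁ p1.le _ hY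
      rw [hmean] at c1
      obtain ⟨Q, hQ⟩ : ∃ Q, Q = ∑ i ∈ Ioc m₁ (m₁ + ⌊(Real.log N) ^ a⌋₊), pr T i := ⟨_, rfl⟩
      rw [← hQ] at c1 p3
      have hQg : g ≤ Q := by nlinarith
      rw [max_eq_left (a3.trans hQg)] at c1
      have c2 := (abs_le.1 c1).1
      have c3 : (1 - δ / 8) * Q ≤ SS E (Ioc m₁ (m₁ + ⌊(Real.log m₁) ^ a⌋₊)) ω := by
        have := SS_win E ω m₁ hY2
        linarith
      have c4 : (1 - δ / 8) * ((1 + δ) * g) ≤ (1 - δ / 8) * Q := by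
        apply mul_le_mul_of_nonneg_left p3
        linarith
      have hLN : 0 < (Real.log N) ^ (1 - a) := by positivity
      calc 1 + δ / 2 ≤ (1 - δ / 8) * ((1 - δ / 8) * (1 + δ)) := by
            nlinarith [mul_nonneg hδ.le (sub_nonneg.2 hδ1), sq_nonneg δ, pow_pos hδ 3]
        _ = ((1 - δ / 8) * (Real.log N) ^ (1 - a)) * ((1 - δ / 8) * ((1 + δ) * g)) := by
            calc (1 - δ / 8) * ((1 - δ / 8) * (1 + δ)) =
                (1 - δ / 8) * ((1 - δ / 8) * (1 + δ)) * (g * (Real.log N) ^ (1 - a)) := by rw [hgi, mul_one]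
              _ = _ := by ring
        _ ≤ (Real.log m₁) ^ (1 - a) * SS E (Ioc m₁ (m₁ + ⌊(Real.log m₁) ^ a⌋₊)) ω := by
            apply mul_le_mul a1 (c4.trans c3) _ (le_trans _ a1)
            · apply mul_nonneg (by linarith) (by positivity)
            · apply mul_nonneg (by linarith) hLN.le
    · refine ⟨m₂, q1, ?_⟩
      obtain ⟨a1, a2, a3, a4, a5⟩ := hcom m₂ q1 q2
      rw [hval m₂ q1 q2]
      have hY : ⌊(Real.log (2 * N)) ^ a⌋₊ ≤ m₂ := by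
        have hp : 0 ≤ (Real.log (2 * N)) ^ a := Real.rpow_nonneg (by linarith) _
        have hq : 0 ≤ (Real.log N) ^ a := by positivity
        have : (⌊(Real.log (2 * N)) ^ a⌋₊ : ℝ) ≤ N := (Nat.floor_le hp).trans (by nlinarith)
        have h3 : ⌊(Real.log (2 * N)) ^ a⌋₊ ≤ N := by exact_mod_cast this
        omega
      have hY2 : ⌊(Real.log m₂) ^ a⌋₊ ≤ ⌊(Real.log (2 * N)) ^ a⌋₊ :=
        Nat.floor_mono (Real.rpow_le_rpow (by linarith) a5 (by linarith))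
      have c1 := g2 m₂ q1.le _ hY
      rw [hmean] at c1
      obtain ⟨Q, hQ⟩ : ∃ Q, Q = ∑ i ∈ Ioc m₂ (m₂ + ⌊(Real.log (2 * N)) ^ a⌋₊), pr T i := ⟨_, rfl⟩
      rw [← hQ] at c1 q3
      have hQg : Q ≤ g := by nlinarith
      have c2 := (abs_le.1 c1).2
      have c5 : δ / 8 * max Q ((Real.log m₂) ^ (1 + η)) ≤ δ / 8 * g := by
        apply mul_le_mul_of_nonneg_left (max_le hQg a3) (by positivity)
      have c3 : SS E (Ioc m₂ (m₂ + ⌊(Real.log m₂) ^ a⌋₊)) ω ≤ (1 - δ + δ / 8) * g := by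
        have := SS_win E ω m₂ hY2
        linarith
      have hLN : 0 < (Real.log N) ^ (1 - a) := by positivity
      have hS0 : 0 ≤ SS E (Ioc m₂ (m₂ + ⌊(Real.log m₂) ^ a⌋₊)) ω := by
        classical
        rw [SS_eq]
        exact Nat.cast_nonneg _
      calc (Real.log m₂) ^ (1 - a) * SS E (Ioc m₂ (m₂ + ⌊(Real.log m₂) ^ a⌋₊)) ω ≤
          ((1 + δ / 8) * (Real.log N) ^ (1 - a)) * ((1 - δ + δ / 8) * g) := by
            apply mul_le_mul a2 c3 hS0 (by positivity)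
        _ = (1 + δ / 8) * (1 - δ + δ / 8) * (g * (Real.log N) ^ (1 - a)) := by ring
        _ = (1 + δ / 8) * (1 - δ + δ / 8) := by rw [hgi, mul_one]
        _ ≤ 1 - δ / 2 := by nlinarith
  obtain ⟨N₀, hN₀⟩ := eventually_atTop.1 key
  refine ⟨δ / 2, by positivity, freq_nat ?_, freq_nat ?_⟩
  · rw [frequently_atTop]
    intro b
    obtain ⟨⟨m, h1, h2⟩, -⟩ := hN₀ (max b N₀) (le_max_right _ _)
    exact ⟨m, (le_max_left _ _).trans h1.le, h2⟩
  · rw [frequently_atTop]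
    intro b
    obtain ⟨-, ⟨m, h1, h2⟩⟩ := hN₀ (max b N₀) (le_max_right _ _)
    exact ⟨m, (le_max_left _ _).trans h1.le, h2⟩

end Pool.Agent.U6.SM
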